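import Mathlib

namespace Pool.Agent.H.MP_653fdd_gt
open Set MeasureTheory Measure RealInnerProductSpace Topology
open scoped ENNReal

abbrev E2 := EuclideanSpace ℝ (Fin 2)

noncomputable abbrev mu : Measure E2 := hausdorffMeasure 1

instance : NullSingletonClass mu := nullSingletonClass_hausdorff E2 one_pos

structure Bd (K : Set E2) : Prop where
  cv : Convex ℝ K
  cp : IsCompact K
  ne : (interior K).Nonempty

variable {K : Set E2}

lemma Bd.fr (h : Bd K) {y : E2} : y ∈ frontier K ↔ y ∈ K ∧ y ∉ interior K := by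
  rw [h.cp.isClosed.frontier_eq]; rfl

lemma Bd.supp (h : Bd K) {y : E2} (hy : y ∉ interior K) :
    ∃ n : E2, n ≠ 0 ∧ ∀ z ∈ K, ⟪n, z - y⟫ ≤ 0 := by
  obtain ⟨f, hf⟩ := geometric_hahn_banach_open_point h.cv.interior isOpen_interior hy
  refine ⟨(InnerProductSpace.toDual ℝ E2).symm f, fun e => ?_, fun z hz => ?_⟩
  · obtain ⟨a, ha⟩ := h.ne
    have := hf a ha
    rw [(LinearIsometryEquiv.map_eq_zero_iff _).1 e] at this
    simp at this
  · have c : closure (interior K) ⊆ {z | f z ≤ f y} :=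
      closure_minimal (fun a ha => (hf a ha).le) (isClosed_le f.continuous continuous_const)
    rw [h.cv.closure_interior_eq_closure_of_nonempty_interior h.ne] at c
    have : f z ≤ f y := c (subset_closure hz)
    rw [InnerProductSpace.toDual_symm_apply, map_sub]
    linarith

lemma near {w w' y y' : E2} (h1 : ⟪w - y, y' - y⟫ ≤ 0) (h2 : ⟪w' - y', y - y'⟫ ≤ 0) :
    ‖y - y'‖ ≤ ‖w - w'‖ := by
  have e : ⟪w - w', y - y'⟫ = ‖y - y'‖ ^ 2 - ⟪w - y, y' - y⟫ - ⟪w' - y', y - y'⟫ := by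
    rw [← real_inner_self_eq_norm_sq]
    simp only [inner_sub_left, inner_sub_right]
    ring
  have := real_inner_le_norm (w - w') (y - y')
  rcases (norm_nonneg (y - y')).eq_or_lt with h | h
  · rw [← h]; positivity
  · nlinarith

lemma Bd.proj (h : Bd K) : ∃ π : E2 → E2, LipschitzWith 1 π ∧
    ∀ w, ∀ y ∈ K, (∀ z ∈ K, ⟪w - y, z - y⟫ ≤ 0) → π w = y := by
  choose π h1 h2 using exists_norm_eq_iInf_of_complete_convex (h.ne.mono interior_subset)
    h.cp.isComplete h.cv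
  have h3 := fun w => (norm_eq_iInf_iff_real_inner_le_zero h.cv (h1 w)).1 (h2 w)
  refine ⟨π, LipschitzWith.of_dist_le_mul fun w w' => ?_, fun w y hy hz => ?_⟩
  · simpa [dist_eq_norm] using near (h3 w _ (h1 w')) (h3 w' _ (h1 w))
  · have := near (h3 w _ hy) (hz _ (h1 w))
    rw [sub_self, norm_zero, norm_le_zero_iff, sub_eq_zero] at this
    exact this

lemma Bd.up (h : Bd K) (m : E2 → ℝ) (hm : Continuous m) (R : ℝ) (hb : ∀ w, 0 ≤ m w → ‖w‖ ≤ R)
    (S T : Set E2) (hT : ∀ y ∈ frontier K, y ∈ T → 0 ≤ m y)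
    (hS : ∀ w, m w = 0 → w ∈ S ∨ (w ∈ K ∧ w ∉ T)) : mu (frontier K ∩ T) ≤ mu S := by
  obtain ⟨π, h1, h2⟩ := h.proj
  have : frontier K ∩ T ⊆ π '' S := by
    rintro y ⟨hy, hyT⟩
    have hy' := hT y hy hyT
    obtain ⟨y1, y2⟩ := h.fr.1 hy
    obtain ⟨n, n0, hn⟩ := h.supp y2
    have n1 : 0 < ‖n‖ := norm_pos_iff.2 n0
    have R0 := (norm_nonneg _).trans (hb y hy')
    have c : Continuous fun s : ℝ => m (y + s • n) := by fun_prop
    have T0 : 0 ≤ (2 * R + 1) / ‖n‖ := by positivity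
    have c2 : m (y + ((2 * R + 1) / ‖n‖) • n) ≤ 0 := by
      by_contra hh
      have a := hb _ (not_le.1 hh).le
      have b := norm_sub_le (y + ((2 * R + 1) / ‖n‖) • n) y
      rw [add_sub_cancel_left, norm_smul_of_nonneg T0, div_mul_cancel₀ _ n1.ne'] at b
      linarith [hb y hy']
    obtain ⟨s, ⟨s0, -⟩, hs⟩ := intermediate_value_Icc' T0 c.continuousOn ⟨c2, by simpa using hy'⟩
    rcases hS _ hs with a | a
    · refine ⟨_, a, h2 _ _ y1 fun z hz => ?_⟩
      rw [add_sub_cancel_left, real_inner_smul_left]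
      exact mul_nonpos_of_nonneg_of_nonpos s0 (hn z hz)
    · have := hn _ a.1
      rw [add_sub_cancel_left, real_inner_smul_right, real_inner_self_eq_norm_sq] at this
      have : s = 0 := le_antisymm (by by_contra hh; nlinarith [mul_pos (not_le.1 hh) (pow_pos n1 2)]) s0
      subst this
      exact (a.2 (by simpa using hyT)).elim
  refine (measure_mono this).trans ((h1.hausdorffMeasure_image_le zero_le_one S).trans_eq ?_)
  simp

def sg (P d : E2) (c : ℝ) : Set E2 := {w | ∃ t, 0 ≤ t ∧ t ≤ c ∧ w = P + t • d}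

lemma sg_le (P d : E2) {c : ℝ} (hc : 0 ≤ c) : mu (sg P d c) ≤ ENNReal.ofReal (c * ‖d‖) := by
  have : sg P d c ⊆ segment ℝ P (P + c • d) := by
    rintro w ⟨t, t0, t1, rfl⟩
    rw [segment_eq_image']
    rcases hc.eq_or_lt with rfl | hc
    · exact ⟨0, by simp, by simp [le_antisymm t1 t0]⟩
    · refine ⟨t / c, ⟨by positivity, (div_le_one hc).2 t1⟩, ?_⟩
      simp only [add_sub_cancel_left, smul_smul, div_mul_cancel₀ _ hc.ne']
  refine (measure_mono this).trans_eq ?_
  rw [hausdorffMeasure_segment, edist_dist, dist_self_add_right, norm_smul_of_nonneg hc]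

lemma Bd.fin (h : Bd K) : mu (frontier K) < ⊤ := by
  obtain ⟨R, R0, hR⟩ := h.cp.isBounded.exists_pos_norm_lt
  have a : ∀ (w : E2) i, |w i| ≤ ‖w‖ := fun w i => by simpa using PiLp.norm_apply_le w i
  have := h.up (fun w => R - max |w 0| |w 1|) (by fun_prop) (2 * R) (fun w hw => ?_)
    ((sg !₂[R, -R] !₂[0, 1] (2 * R) ∪ sg !₂[-R, -R] !₂[0, 1] (2 * R)) ∪
      (sg !₂[-R, R] !₂[1, 0] (2 * R) ∪ sg !₂[-R, -R] !₂[1, 0] (2 * R))) univ (fun y hy _ => ?_)
    (fun w hw => Or.inl ?_)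
  · rw [inter_univ] at this
    have f : ∀ P d, mu (sg P d (2 * R)) < ⊤ := fun P d =>
      (sg_le P d (by positivity)).trans_lt ENNReal.ofReal_lt_top
    exact this.trans_lt (measure_union_lt_top (measure_union_lt_top (f _ _) (f _ _))
      (measure_union_lt_top (f _ _) (f _ _)))
  · have h0 := abs_le.1 ((le_max_left _ _).trans (sub_nonneg.1 hw))
    have h1 := abs_le.1 ((le_max_right _ _).trans (sub_nonneg.1 hw))
    rw [EuclideanSpace.norm_eq, Real.sqrt_le_left (by positivity), Fin.sum_univ_two]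
    simp only [Real.norm_eq_abs, sq_abs]
    nlinarith
  · have := hR y (h.fr.1 hy).1
    exact sub_nonneg.2 (max_le ((a y 0).trans this.le) ((a y 1).trans this.le))
  · have hw := (sub_eq_zero.1 hw).symm
    have h0 := abs_le.1 ((le_max_left _ _).trans hw.le)
    have h1 := abs_le.1 ((le_max_right _ _).trans hw.le)
    rcases max_choice |w 0| |w 1| with e | e <;> rw [e] at hw <;>
      rcases (abs_eq R0.le).1 hw with e | e
    · exact Or.inl (Or.inl ⟨w 1 + R, by linarith, by linarith, by ext i; fin_cases i <;> simp [e]⟩)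
    · exact Or.inl (Or.inr ⟨w 1 + R, by linarith, by linarith, by ext i; fin_cases i <;> simp [e]⟩)
    · exact Or.inr (Or.inl ⟨w 0 + R, by linarith, by linarith, by ext i; fin_cases i <;> simp [e]⟩)
    · exact Or.inr (Or.inr ⟨w 0 + R, by linarith, by linarith, by ext i; fin_cases i <;> simp [e]⟩)

lemma low (S : Set E2) (g : E2 → ℝ) (hg : LipschitzWith 1 g) (a b : ℝ) (h : Ioo a b ⊆ g '' S) :
    ENNReal.ofReal (b - a) ≤ mu S := by
  have := hg.hausdorffMeasure_image_le zero_le_one S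
  rw [hausdorffMeasure_real] at this
  rw [← Real.volume_Ioo]
  exact (measure_mono h).trans (by simpa using this)

lemma Bd.ray (h : Bd K) {z : E2} (hz : z ∈ interior K) (d : E2) :
    mu (frontier K ∩ {y | ∃ s : ℝ, 0 ≤ s ∧ y = z + s • d}) = 0 := by
  have k : ∀ s s' : ℝ, 0 ≤ s → s < s' → z + s • d ∈ frontier K → z + s' • d ∈ frontier K → False :=
    fun s s' s0 hs a b => by
      have s1 : 0 < s' := s0.trans_lt hs
      have := h.cv.combo_interior_self_mem_interior hz (h.fr.1 b).1 (a := 1 - s / s') (b := s / s')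
        (sub_pos.2 ((div_lt_one s1).2 hs)) (by positivity) (by ring)
      refine (h.fr.1 a).2 ?_
      have e : z + s • d = (1 - s / s') • z + (s / s') • (z + s' • d) := by
        match_scalars <;> field_simp
        ring
      rwa [e]
  refine Set.Subsingleton.measure_zero ?_ _
  rintro _ ⟨a, s, s0, rfl⟩ _ ⟨b, s', s1, rfl⟩
  rcases lt_trichotomy s s' with l | l | l
  · exact (k _ _ s0 l a b).elim
  · rw [l]
  · exact (k _ _ s1 l b a).elim

def cone (u v : E2) : Set E2 := {w | ∃ a b : ℝ, 0 < a ∧ 0 < b ∧ w = a • u + b • v}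

structure B0 (K : Set E2) : Prop extends Bd K where
  z : 0 ∈ interior K

lemma B0.nh (h : B0 K) : K ∈ 𝓝 (0 : E2) := mem_interior_iff_mem_nhds.1 h.z

lemma B0.pos (h : B0 K) {u : E2} (hu : u ≠ 0) : 0 < gauge K u :=
  (gauge_pos (absorbent_nhds_zero h.nh) (h.cp.isVonNBounded ℝ)).2 hu

lemma B0.add (h : B0 K) (u v : E2) : gauge K (u + v) ≤ gauge K u + gauge K v :=
  gauge_add_le h.cv (absorbent_nhds_zero h.nh) u v

lemma B0.mem (h : B0 K) {u : E2} {a : ℝ} (ha : 0 ≤ a) (h1 : a * gauge K u ≤ 1) : a • u ∈ K := by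
  rw [← h.cp.isClosed.closure_eq, ← gauge_le_one_iff_mem_closure h.cv h.nh, gauge_smul_of_nonneg ha]
  exact h1

lemma B0.chord (h : B0 K) (u v : E2) (hi : ∀ a b : ℝ, a • u + b • v = 0 → a = 0 ∧ b = 0) :
    ENNReal.ofReal ‖(gauge K v)⁻¹ • v - (gauge K u)⁻¹ • u‖ ≤ mu (frontier K ∩ cone u v) := by
  have p : ∀ t : ℝ, 0 < gauge K ((1 - t) • u + t • v) := fun t => h.pos fun e => by
    have := hi _ _ e; linarith
  have c0 := continuous_gauge h.cv h.nh
  have c : Continuous fun t : ℝ => dist ((gauge K ((1 - t) • u + t • v))⁻¹ • ((1 - t) • u + t • v))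
      ((gauge K u)⁻¹ • u) := by
    refine Continuous.dist (Continuous.smul (Continuous.inv₀ (by fun_prop) fun t => (p t).ne') ?_) ?_ <;>
      fun_prop
  have := low (frontier K ∩ cone u v) _ (LipschitzWith.dist_left ((gauge K u)⁻¹ • u)) 0
    ‖(gauge K v)⁻¹ • v - (gauge K u)⁻¹ • u‖ fun s hs => ?_
  · simpa using this
  · obtain ⟨t, ⟨t0, t1⟩, e⟩ := intermediate_value_Ioo zero_le_one c.continuousOn
      (show s ∈ _ by simpa [dist_eq_norm] using hs)
    refine ⟨_, ⟨?_, (gauge K ((1 - t) • u + t • v))⁻¹ * (1 - t),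
      (gauge K ((1 - t) • u + t • v))⁻¹ * t, mul_pos (inv_pos.2 (p t)) (by linarith),
      mul_pos (inv_pos.2 (p t)) t0, by rw [smul_add, smul_smul, smul_smul]⟩, e⟩
    rw [← gauge_eq_one_iff_mem_frontier h.cv h.nh, gauge_smul_of_nonneg (inv_pos.2 (p t)).le]
    exact inv_mul_cancel₀ (p t).ne'

def Fr (p q : E2) : Prop := ∃ A B : E2 →L[ℝ] ℝ, (∀ w, A w • p + B w • q = w) ∧
  A p = 1 ∧ A q = 0 ∧ B p = 0 ∧ B q = 1

lemma Fr.ind {p q : E2} (h : Fr p q) (a b : ℝ) (e : a • p + b • q = 0) : a = 0 ∧ b = 0 := by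
  obtain ⟨A, B, -, a1, a2, a3, a4⟩ := h
  have h1 := congrArg A e
  have h2 := congrArg B e
  simp [a1, a2, a3, a4] at h1 h2
  exact ⟨h1, h2⟩

lemma B0.upper (h : B0 K) {p q : E2} (f : Fr p q) {r1 r2 r3 r4 D : ℝ} (e1 : r1 = gauge K (p - q))
    (e2 : r2 = gauge K p) (e3 : r3 = gauge K q) (e4 : r4 = gauge K (q - p))
    (eD : D = r1 * r3 - r1 * r4 + r2 * r4) (hD : 0 < D) :
    mu (frontier K ∩ cone p q) ≤
      ENNReal.ofReal (r1 * (r2 + r4 - r3) / D * ‖r2⁻¹ • p - r1⁻¹ • (p - q)‖ +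
        r4 * (r1 + r3 - r2) / D * ‖r4⁻¹ • (q - p) - r3⁻¹ • q‖) := by
  have p1 : 0 < r1 := e1 ▸ h.pos fun e => one_ne_zero (f.ind 1 (-1) (by simpa [sub_eq_add_neg] using e)).1
  have p2 : 0 < r2 := e2 ▸ h.pos fun e => one_ne_zero (f.ind 1 0 (by simpa using e)).1
  have p3 : 0 < r3 := e3 ▸ h.pos fun e => one_ne_zero (f.ind 0 1 (by simpa using e)).2
  have p4 : 0 < r4 := e4 ▸ h.pos fun e => one_ne_zero (f.ind (-1) 1
    (by simpa [sub_eq_neg_add] using e)).2
  have d2 : r2 ≤ r1 + r3 := by have := h.add (p - q) q; rw [sub_add_cancel] at this; linarith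
  have d3 : r3 ≤ r2 + r4 := by have := h.add p (q - p); rw [add_sub_cancel] at this; linarith
  obtain ⟨A, B, hw, a1, a2, a3, a4⟩ := f
  have b0 : 0 ≤ r1 * (r2 + r4 - r3) / D := div_nonneg (mul_nonneg p1.le (by linarith)) hD.le
  have a0 : 0 ≤ r4 * (r1 + r3 - r2) / D := div_nonneg (mul_nonneg p4.le (by linarith)) hD.le
  have g : ∀ y ∈ frontier K, 0 < A y → 0 < B y →
      A y * r2 + B y * (r2 - r1) ≤ 1 ∧ A y * (r3 - r4) + B y * r3 ≤ 1 := fun y hy ha hb => by
    have y1 := gauge_le_one_of_mem (h.fr.1 hy).1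
    have k1 := h.add y (B y • (p - q))
    have k2 := h.add y (A y • (q - p))
    rw [show y + B y • (p - q) = (A y + B y) • p by nth_rw 1 [← hw y]; module,
      gauge_smul_of_nonneg (by positivity), gauge_smul_of_nonneg hb.le, ← e1, ← e2] at k1
    rw [show y + A y • (q - p) = (A y + B y) • q by nth_rw 1 [← hw y]; module,
      gauge_smul_of_nonneg (by positivity), gauge_smul_of_nonneg ha.le, ← e3, ← e4] at k2
    simp only [smul_eq_mul] at k1 k2
    constructor <;> linarith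
  have bd : ∀ a b : ℝ, a * r2 + b * (r2 - r1) ≤ 1 → a * (r3 - r4) + b * r3 ≤ 1 → 0 ≤ a → 0 ≤ b →
      a ≤ 1 / r2 + (r1 + r3) / D ∧ b ≤ 1 / r3 + (r2 + r4) / D := fun a b h1 h3 ha hb => by
    constructor
    · rcases le_total r1 r2 with l | l
      · refine le_add_of_le_of_nonneg ((le_div_iff₀ p2).2 ?_) (by positivity)
        linarith [mul_nonneg hb (sub_nonneg.2 l)]
      · refine le_add_of_nonneg_of_le (by positivity) ((le_div_iff₀ hD).2 ?_)
        have := mul_le_mul_of_nonneg_left h1 p3.le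
        have := mul_le_mul_of_nonneg_left h3 (sub_nonneg.2 l)
        rw [eD]; linarith
    · rcases le_total r4 r3 with l | l
      · refine le_add_of_le_of_nonneg ((le_div_iff₀ p3).2 ?_) (by positivity)
        linarith [mul_nonneg ha (sub_nonneg.2 l)]
      · refine le_add_of_nonneg_of_le (by positivity) ((le_div_iff₀ hD).2 ?_)
        have := mul_le_mul_of_nonneg_left h3 p2.le
        have := mul_le_mul_of_nonneg_left h1 (sub_nonneg.2 l)
        rw [eD]; linarith
  have co : ∀ y ∈ cone p q, 0 < A y ∧ 0 < B y := by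
    rintro _ ⟨a, b, ha, hb, rfl⟩
    simp [a1, a2, a3, a4, ha, hb]
  have mi : ∀ w, 0 ≤ min (min (A w) (B w)) (min (1 - (A w * r2 + B w * (r2 - r1)))
      (1 - (A w * (r3 - r4) + B w * r3))) → 0 ≤ A w ∧ 0 ≤ B w ∧ A w * r2 + B w * (r2 - r1) ≤ 1 ∧
        A w * (r3 - r4) + B w * r3 ≤ 1 := fun w hw => by
    simp only [le_min_iff, sub_nonneg] at hw
    exact ⟨hw.1.1, hw.1.2, hw.2.1, hw.2.2⟩
  have key := h.up (fun w => min (min (A w) (B w)) (min (1 - (A w * r2 + B w * (r2 - r1)))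
    (1 - (A w * (r3 - r4) + B w * r3)))) (by fun_prop)
    ((1 / r2 + (r1 + r3) / D) * ‖p‖ + (1 / r3 + (r2 + r4) / D) * ‖q‖) (fun w hw' => ?_)
    (sg (r2⁻¹ • p) (r2⁻¹ • p - r1⁻¹ • (p - q)) (r1 * (r2 + r4 - r3) / D) ∪
      sg (r3⁻¹ • q) (-(r4⁻¹ • (q - p) - r3⁻¹ • q)) (r4 * (r1 + r3 - r2) / D)) (cone p q)
    (fun y hy hc => ?_) (fun w hw' => ?_)
  · refine key.trans ((measure_union_le _ _).trans ?_)
    rw [ENNReal.ofReal_add (by positivity) (by positivity)]
    refine add_le_add (sg_le _ _ b0) ((sg_le _ _ a0).trans_eq ?_)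
    rw [norm_neg]
  · obtain ⟨m1, m2, m3, m4⟩ := mi w hw'
    obtain ⟨n1, n2⟩ := bd _ _ m3 m4 m1 m2
    rw [← hw w]
    refine (norm_add_le _ _).trans ?_
    rw [norm_smul_of_nonneg m1, norm_smul_of_nonneg m2]
    gcongr
  · obtain ⟨m1, m2⟩ := co y hc
    obtain ⟨m3, m4⟩ := g y hy m1 m2
    exact le_min (le_min m1.le m2.le) (le_min (by linarith) (by linarith))
  · obtain ⟨m1, m2, m3, m4⟩ := mi w hw'.ge
    have e := hw w
    rcases min_eq_iff.1 hw' with ⟨k, -⟩ | ⟨k, -⟩ <;> rcases min_eq_iff.1 k with ⟨k, -⟩ | ⟨k, -⟩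
    · refine Or.inr ⟨?_, fun hc => (co w hc).1.ne' k⟩
      rw [k, zero_smul, zero_add] at e
      rw [k] at m4
      rw [← e]; exact h.mem m2 (by rw [← e3]; linarith)
    · refine Or.inr ⟨?_, fun hc => (co w hc).2.ne' k⟩
      rw [k, zero_smul, add_zero] at e
      rw [k] at m3
      rw [← e]; exact h.mem m1 (by rw [← e2]; linarith)
    · refine Or.inl (Or.inl ⟨B w * r1, by positivity, (le_div_iff₀ hD).2 ?_, ?_⟩)
      · have t1 : A w * r2 * (r3 - r4) = (1 - B w * (r2 - r1)) * (r3 - r4) := by congr 1; linarith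
        have t2 : B w * D ≤ r2 + r4 - r3 := by
          rw [eD]; linarith [mul_le_mul_of_nonneg_left m4 p2.le]
        linarith [mul_le_mul_of_nonneg_left t2 p1.le]
      · have t : A w = (1 - B w * (r2 - r1)) / r2 := by field_simp; linarith
        generalize B w = b at *
        rw [← e, t]
        match_scalars <;> field_simp <;> ring
    · refine Or.inl (Or.inr ⟨A w * r4, by positivity, (le_div_iff₀ hD).2 ?_, ?_⟩)
      · have t1 : B w * r3 * (r2 - r1) = (1 - A w * (r3 - r4)) * (r2 - r1) := by congr 1; linarith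
        have t2 : A w * D ≤ r1 + r3 - r2 := by
          rw [eD]; linarith [mul_le_mul_of_nonneg_left m3 p3.le]
        linarith [mul_le_mul_of_nonneg_left t2 p4.le]
      · have t : B w = (1 - A w * (r3 - r4)) / r3 := by field_simp; linarith
        generalize A w = a at *
        rw [← e, t]
        match_scalars <;> field_simp <;> ring

end Pool.Agent.H.MP_653fdd_gt
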