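import Pool.Agent.H.MP_653fdd_gt.D

namespace Pool.Agent.H.MP_653fdd_gt
open Set MeasureTheory Measure RealInnerProductSpace Topology Filter
open scoped ENNReal

variable {K : Set E2} {φ : ℝ}

lemma Bd.cl (h : Bd K) (P : Ph φ) : IsClosed {a : E2 × ℝ | Sm φ K a.1 a.2} := by
  have φ0 : 0 < 1 + φ := by linarith [P.lo]
  refine IsSeqClosed.isClosed fun u a hu ha => ⟨?_, ?_⟩
  · have : Tendsto (fun n => ‖(u n).1‖) atTop (𝓝 ‖a.1‖) := ((continuous_fst.tendsto a).comp ha).norm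
    simp only [fun n => (hu n).1] at this
    exact (tendsto_nhds_unique tendsto_const_nhds this).symm
  · rw [mul_comm, ← le_div_iff₀ φ0]
    refine nu_le (div_nonneg h.pos.le φ0.le) ?_
    have s : frontier K ∩ {y | ⟪a.1, y⟫ < a.2} ⊆
        ⋃ N : ℕ, ⋂ n ≥ N, frontier K ∩ {y | ⟪(u n).1, y⟫ < (u n).2} := by
      rintro y ⟨y1, y2⟩
      have c : Continuous fun b : E2 × ℝ => b.2 - ⟪b.1, y⟫ := by fun_prop
      have := ((c.tendsto a).comp ha).eventually (lt_mem_nhds (sub_pos.2 y2))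
      obtain ⟨N, hN⟩ := eventually_atTop.1 this
      exact mem_iUnion.2 ⟨N, mem_iInter₂.2 fun n hn => ⟨y1, sub_pos.1 (hN n hn)⟩⟩
    refine (measure_mono s).trans ?_
    rw [Monotone.measure_iUnion fun N M hh => biInter_subset_biInter_left fun n hn => le_trans hh hn]
    refine iSup_le fun N => (measure_mono (biInter_subset_of_mem (le_refl N))).trans ?_
    rw [ENNReal.le_ofReal_iff_toReal_le (h.nt _) (div_nonneg h.pos.le φ0.le), ← nu_eq, le_div_iff₀ φ0,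
      mul_comm]
    exact (hu N).2

lemma Bd.unif (h : Bd K) (P : Ph φ) (R : ℝ) : ∃ ε : ℝ, 0 < ε ∧ ∀ a b c : E2 × ℝ,
    Sm φ K a.1 a.2 ∧ |a.2| ≤ R → Sm φ K b.1 b.2 ∧ |b.2| ≤ R → Sm φ K c.1 c.2 ∧ |c.2| ≤ R →
      ∃ y ∈ K, a.2 + ε ≤ ⟪a.1, y⟫ ∧ b.2 + ε ≤ ⟪b.1, y⟫ ∧ c.2 + ε ≤ ⟪c.1, y⟫ := by
  have c1 : IsCompact {a : E2 × ℝ | Sm φ K a.1 a.2 ∧ |a.2| ≤ R} := by
    refine ((isCompact_sphere (0 : E2) 1).prod (isCompact_Icc (a := -R) (b := R))).of_isClosed_subset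
      ((h.cl P).inter (isClosed_le (f := fun a : E2 × ℝ => |a.2|) (by fun_prop) continuous_const))
      fun a ha => ?_
    exact ⟨by simpa using ha.1.1, abs_le.1 ha.2⟩
  have := (c1.prod (c1.prod c1)).induction_on (p := fun S => ∃ ε : ℝ, 0 < ε ∧ ∀ a ∈ S,
    ∃ y ∈ K, a.1.2 + ε ≤ ⟪a.1.1, y⟫ ∧ a.2.1.2 + ε ≤ ⟪a.2.1.1, y⟫ ∧ a.2.2.2 + ε ≤ ⟪a.2.2.1, y⟫)
    ⟨1, one_pos, by simp⟩ (fun s t hs ⟨ε, e0, e1⟩ => ⟨ε, e0, fun a ha => e1 a (hs ha)⟩)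
    (fun s t ⟨ε, e0, e1⟩ ⟨δ, d0, d1⟩ => ⟨min ε δ, lt_min e0 d0, fun a ha => ?_⟩) fun a ha => ?_
  · obtain ⟨ε, e0, e1⟩ := this
    exact ⟨ε, e0, fun a b c ha hb hc => e1 (a, b, c) ⟨ha, hb, hc⟩⟩
  · have := min_le_left ε δ
    have := min_le_right ε δ
    rcases ha with ha | ha
    · obtain ⟨y, a, b, c, d⟩ := e1 a ha
      exact ⟨y, a, by linarith, by linarith, by linarith⟩
    · obtain ⟨y, a, b, c, d⟩ := d1 a ha
      exact ⟨y, a, by linarith, by linarith, by linarith⟩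
  · obtain ⟨y, y0, y1, y2, y3⟩ := h.three P ha.1.1 ha.2.1.1 ha.2.2.1
    have c : Continuous fun a : (E2 × ℝ) × (E2 × ℝ) × E2 × ℝ =>
        min (⟪a.1.1, y⟫ - a.1.2) (min (⟪a.2.1.1, y⟫ - a.2.1.2) (⟪a.2.2.1, y⟫ - a.2.2.2)) := by fun_prop
    have p : 0 < min (⟪a.1.1, y⟫ - a.1.2) (min (⟪a.2.1.1, y⟫ - a.2.1.2) (⟪a.2.2.1, y⟫ - a.2.2.2)) :=
      lt_min (sub_pos.2 y1) (lt_min (sub_pos.2 y2) (sub_pos.2 y3))
    refine ⟨_, mem_nhdsWithin_of_mem_nhds (c.continuousAt.eventually (lt_mem_nhds (half_lt_self p))),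
      _, half_pos p, fun b hb => ⟨y, y0, ?_⟩⟩
    simp only [mem_ofPred_eq, lt_min_iff] at hb
    exact ⟨by linarith [hb.1], by linarith [hb.2.1], by linarith [hb.2.2]⟩

lemma sub3 {ι : Type*} (d : ι) (I : Finset ι) (h : I.card ≤ 3) :
    ∃ a b c, ∀ i ∈ I, i = a ∨ i = b ∨ i = c := by
  classical
  generalize e : I.card = n at h
  interval_cases n
  · exact ⟨d, d, d, by simp [Finset.card_eq_zero.1 e]⟩
  · obtain ⟨a, rfl⟩ := Finset.card_eq_one.1 e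
    exact ⟨a, a, a, by simp⟩
  · obtain ⟨a, b, -, rfl⟩ := Finset.card_eq_two.1 e
    exact ⟨a, b, b, by simp⟩
  · obtain ⟨a, b, c, -, -, -, rfl⟩ := Finset.card_eq_three.1 e
    exact ⟨a, b, c, by simp⟩

theorem Bd.main (h : Bd K) (P : Ph φ) : ∃ x ∈ interior K, ∀ v : E2, ‖v‖ = 1 →
    nu K univ < (1 + φ) * nu K {y | ⟪v, y⟫ < ⟪v, x⟫} := by
  obtain ⟨R, R0, hR⟩ := h.cp.isBounded.exists_pos_norm_lt
  obtain ⟨ε, e0, he⟩ := h.unif P R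
  have b : ∀ v : E2, ‖v‖ = 1 → ∀ y ∈ K, |⟪v, y⟫| ≤ R := fun v hv y hy => by
    have := abs_real_inner_le_norm v y
    rw [hv] at this
    linarith [hR y hy]
  have z : ∀ (v : E2) (t : ℝ), ‖v‖ = 1 → (∀ y ∈ K, t ≤ ⟪v, y⟫) → Sm φ K v t := fun v t hv ht => by
    refine ⟨hv, ?_⟩
    have := h.mono (S := {y | ⟪v, y⟫ < t}) (T := ∅) fun y hy hh => (ht y hy).not_gt hh
    have e : nu K ∅ = 0 := measureReal_empty
    have := mul_nonpos_of_nonneg_of_nonpos (show 0 ≤ 1 + φ by linarith [P.lo]) (this.trans_eq e)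
    linarith [h.pos]
  have e : ‖(EuclideanSpace.single 0 1 : E2)‖ = 1 := by simp
  let d : {a : E2 × ℝ // Sm φ K a.1 a.2 ∧ |a.2| ≤ R} := ⟨(EuclideanSpace.single 0 1, -R),
    z _ _ e fun y hy => (abs_le.1 (b _ e y hy)).1, by simp [abs_of_pos R0]⟩
  obtain ⟨x, hx⟩ := Convex.helly_theorem_compact' (𝕜 := ℝ)
    (F := fun a : {a : E2 × ℝ // Sm φ K a.1 a.2 ∧ |a.2| ≤ R} => K ∩ {y | a.1.2 + ε ≤ ⟪a.1.1, y⟫})
    (fun a => h.cv.inter (convex_halfSpace_ge (innerSL ℝ a.1.1).isLinear _))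
    (fun a => h.cp.inter_right (isClosed_le continuous_const (by fun_prop))) fun I hI => by
      obtain ⟨a, b, c, k⟩ := sub3 d I (by simpa using hI)
      obtain ⟨y, y0, y1, y2, y3⟩ := he a b c a.2 b.2 c.2
      refine ⟨y, mem_iInter₂.2 fun i hi => ⟨y0, ?_⟩⟩
      rcases k i hi with rfl | rfl | rfl <;> assumption
  have x0 : x ∈ K := (mem_iInter.1 hx d).1
  have x1 : ∀ v, ¬ Sm φ K v ⟪v, x⟫ := fun v s => by
    have : ⟪v, x⟫ + ε ≤ ⟪v, x⟫ := (mem_iInter.1 hx ⟨(v, ⟪v, x⟫), s, b v s.1 x x0⟩).2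
    linarith
  refine ⟨x, ?_, fun v hv => not_le.1 fun k => x1 v ⟨hv, k⟩⟩
  by_contra hh
  obtain ⟨n, n0, hn⟩ := h.supp hh
  have n1 := norm_pos_iff.2 n0
  refine x1 (-(‖n‖⁻¹ • n)) (z _ _ (by rw [norm_neg, norm_smul_of_nonneg (by positivity),
    inv_mul_cancel₀ n1.ne']) fun y hy => ?_)
  have := mul_nonpos_of_nonneg_of_nonpos (inv_pos.2 n1).le (hn y hy)
  rw [inner_sub_right] at this
  simp only [inner_neg_left, real_inner_smul_left]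
  linarith

lemma ph : Ph ((Real.sqrt 5 + 1) / 2) := by
  have e := Real.sq_sqrt (show (0 : ℝ) ≤ 5 by norm_num)
  have a : 2.236 < Real.sqrt 5 := Real.lt_sqrt_of_sq_lt (by norm_num)
  have b : Real.sqrt 5 < 2.2362 := (Real.sqrt_lt' (by norm_num)).2 (by norm_num)
  exact ⟨by linarith, by linarith, by linarith⟩

theorem final (h : Bd K) : ∃ x ∈ interior K, ∀ v : E2, v ≠ 0 →
    mu (frontier K ∩ {y | 0 ≤ ⟪y - x, v⟫}) <
      ENNReal.ofReal ((Real.sqrt 5 + 1) / 2) * mu (frontier K ∩ {y | ⟪y - x, v⟫ ≤ 0}) := by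
  have P := ph
  generalize (Real.sqrt 5 + 1) / 2 = φ at *
  obtain ⟨x, hx, hv⟩ := h.main P
  refine ⟨x, hx, fun v v0 => ?_⟩
  have n1 := norm_pos_iff.2 v0
  have φ0 : 0 ≤ φ := by linarith [P.lo]
  have a := hv (‖v‖⁻¹ • v) (by rw [norm_smul_of_nonneg (by positivity), inv_mul_cancel₀ n1.ne'])
  have e : {y | ⟪‖v‖⁻¹ • v, y⟫ < ⟪‖v‖⁻¹ • v, x⟫} = {y | 0 ≤ ⟪y - x, v⟫}ᶜ := by
    ext y
    simp only [mem_ofPred_eq, real_inner_smul_left, mem_compl_iff, not_le, inner_sub_left,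
      mul_lt_mul_iff_right₀ (inv_pos.2 n1), sub_neg]
    rw [real_inner_comm, real_inner_comm v x]
  rw [e] at a
  have m : MeasurableSet {y : E2 | 0 ≤ ⟪y - x, v⟫} :=
    (isClosed_le continuous_const (by fun_prop)).measurableSet
  have b := h.dj disjoint_compl_right m.compl
  rw [union_compl_self] at b
  have c := h.mono (S := {y | 0 ≤ ⟪y - x, v⟫}ᶜ) (T := {y | ⟪y - x, v⟫ ≤ 0})
    fun y _ (hy : ¬ 0 ≤ ⟪y - x, v⟫) => (not_le.1 hy).le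
  have d := mul_le_mul_of_nonneg_left c φ0
  rw [← ENNReal.toReal_lt_toReal (h.nt _) (ENNReal.mul_ne_top ENNReal.ofReal_ne_top (h.nt _)),
    ENNReal.toReal_mul, ENNReal.toReal_ofReal φ0, ← nu_eq, ← nu_eq]
  linarith

end Pool.Agent.H.MP_653fdd_gt
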