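import Pool.Agent.H.MP_653fdd_gt.G

namespace Pool.Agent.H.MP_653fdd_gt

def dd (r1 r2 r3 r4 : ℝ) : ℝ := r1 * r3 - r1 * r4 + r2 * r4

noncomputable def al (r1 r2 r3 r4 : ℝ) : ℝ := r4 * (r1 + r3 - r2) / dd r1 r2 r3 r4

noncomputable def be (r1 r2 r3 r4 : ℝ) : ℝ := r1 * (r2 + r4 - r3) / dd r1 r2 r3 r4

structure Cn (r1 r2 r3 r4 oc oa Y X : ℝ) : Prop where
  a : X / (X + oa) ≤ r4 * (r1 + r3 - r2) / (r3 * (r1 + r4))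
  b : Y / (Y + oc) ≤ r1 * (r2 + r4 - r3) / (r2 * (r1 + r4))
  c : Y / (X + oa) ≤ r1 * (r2 + r4 - r3) * oc / (r3 * (r1 + r4) * oa)
  d : X / (Y + oc) ≤ r4 * (r1 + r3 - r2) * oa / (r2 * (r1 + r4) * oc)

variable {φ r1 r2 r3 r4 r5 r6 oa ob oc Xa Xb Xc Ya Yb Yc : ℝ}

lemma cn_b (h1 : 0 < r1) (h2 : 0 < r2) (h3 : 0 < r3) (h4 : 0 < r4) (hc : 0 < oc) (ha : 0 < oa)
    (hD : 0 < dd r1 r2 r3 r4) :
    Cn r1 r2 r3 r4 oc oa (be r1 r2 r3 r4 * oc) (al r1 r2 r3 r4 * oa) := by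
  have e1 : al r1 r2 r3 r4 * oa + oa = r3 * (r1 + r4) * oa / dd r1 r2 r3 r4 := by
    unfold al; field_simp; unfold dd; ring
  have e2 : be r1 r2 r3 r4 * oc + oc = r2 * (r1 + r4) * oc / dd r1 r2 r3 r4 := by
    unfold be; field_simp; unfold dd; ring
  refine ⟨le_of_eq ?_, le_of_eq ?_, le_of_eq ?_, le_of_eq ?_⟩
  · rw [e1]; unfold al; field_simp
  · rw [e2]; unfold be; field_simp
  · rw [e1]; unfold be; field_simp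
  · rw [e2]; unfold al; field_simp

lemma cn_u {M : ℝ} (h1 : 0 < r1) (h2 : 0 < r2) (h3 : 0 < r3) (h4 : 0 < r4) (hc : 0 < oc) (ha : 0 < oa)
    (hM : 0 < M) (hD : dd r1 r2 r3 r4 ≤ 0) :
    Cn r1 r2 r3 r4 oc oa (M * (r2 * oc)) (M * (r3 * oa)) := by
  unfold dd at hD
  have e1 : 1 ≤ r4 * (r1 + r3 - r2) / (r3 * (r1 + r4)) := by
    rw [one_le_div (by positivity)]; linarith
  have e2 : 1 ≤ r1 * (r2 + r4 - r3) / (r2 * (r1 + r4)) := by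
    rw [one_le_div (by positivity)]; linarith
  have g : ∀ {x y o : ℝ}, 0 < x → 0 < y → 0 < o → M * x / (M * y + o) ≤ x / y := fun hx hy ho => by
    rw [div_le_div_iff₀ (by positivity) hy]; nlinarith
  refine ⟨le_trans ?_ e1, le_trans ?_ e2, (g (by positivity) (by positivity) ha).trans ?_,
    (g (by positivity) (by positivity) hc).trans ?_⟩
  · rw [div_le_one (by positivity)]; linarith
  · rw [div_le_one (by positivity)]; linarith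
  · refine (le_mul_of_one_le_right (by positivity) e2).trans_eq ?_
    field_simp
  · refine (le_mul_of_one_le_right (by positivity) e1).trans_eq ?_
    field_simp

lemma tt_le (h1 : 0 < r1) (h2 : 0 < r2) (h3 : 0 < r3) (h4 : 0 < r4) (h5 : 0 < r5) (h6 : 0 < r6)
    (H : Hx φ Xa Xb Xc Ya Yb Yc oa ob oc) (B : Cn r1 r2 r3 r4 oc oa Yc Xa)
    (C : Cn r3 r4 r5 r6 oa ob Ya Xb) (A : Cn r5 r6 r1 r2 ob oc Yb Xc) :
    TT Xa Xb Xc Ya Yb Yc oa ob oc ≤ 1 := by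
  obtain ⟨x0, x1, x2, y0, y1, y2, p0, p1, p2, -⟩ := H
  have m : ∀ {a b c d : ℝ}, 0 ≤ a → 0 ≤ c → a ≤ b → c ≤ d → a * c ≤ b * d := fun u v w z =>
    mul_le_mul w z v (u.trans w)
  have t1 := m (by positivity) (by positivity) B.a C.b
  have t2 := m (by positivity) (by positivity) C.a A.b
  have t3 := m (by positivity) (by positivity) A.a B.b
  have t4 := m (by positivity) (by positivity) (m (by positivity) (by positivity) A.c B.c) C.c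
  have t5 := m (by positivity) (by positivity) (m (by positivity) (by positivity) B.d C.d) A.d
  refine (add_le_add (add_le_add (add_le_add (add_le_add t1 t2) t3) t4) t5).trans_eq ?_
  field_simp
  ring

lemma capI {s1 s2 s3 s4 s5 s6 : ℝ} (P : Ph φ) (c1 : φ * (s1 + s2 + s3) ≤ s4 + s5 + s6)
    (c2 : φ * (s3 + s4 + s5) ≤ s6 + s1 + s2) (c3 : φ * (s5 + s6 + s1) ≤ s2 + s3 + s4) :
    φ * (s1 + s3 + s5) + s3 ≤ s6 ∧ 2 * (s1 + s2 + s3) + φ * (s1 + s3) ≤ φ * (s4 + s6) := by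
  have h : 0 ≤ φ - 1 := by linarith [P.lo]
  have e : ∀ t, (φ - 1) * (φ * t) = t := fun t => by
    have := P.sq
    calc _ = (φ ^ 2 - φ) * t := by ring
      _ = t := by rw [this]; ring
  have d2 := mul_le_mul_of_nonneg_left c2 h
  have d3 := mul_le_mul_of_nonneg_left c3 h
  rw [e] at d2 d3
  constructor <;> linarith

lemma exA {σ : ℝ} (P : Ph φ) (hσ : σ = oa + ob + oc) (h0 : 0 ≤ σ) (hb : 0 ≤ Xb + Yb + ob)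
    (hw : 0 ≤ Xc + Ya) (A : 2 * (Xb + Yb + ob - Xc - Ya) + φ * (oa + oc) ≤ φ * (Ya + Xb + (Yb + Xc)))
    (i1 : φ * σ + oc ≤ Xb + Ya) (i2 : φ * σ + oa ≤ Xc + Yb) :
    φ * σ ≤ 2 * (Xc + Ya) ∧ 1909 * (Xb + Yb + ob) + 8090 * σ ≤ 18091 * (Xc + Ya) := by
  obtain ⟨sq, lo, hi⟩ := P
  have A' : (2 - φ) * (Xb + Yb + ob) + φ * σ ≤ (2 + φ) * (Xc + Ya) := by rw [hσ]; linarith
  constructor
  · have := mul_le_mul_of_nonneg_left (show 2 * (φ * σ) + σ - (Xc + Ya) ≤ Xb + Yb + ob by linarith)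
      (show 0 ≤ 2 - φ by linarith)
    have e : φ * (φ * σ) = φ * σ + σ := by
      calc _ = φ ^ 2 * σ := by ring
        _ = _ := by rw [sq]; ring
    linarith
  · have a := mul_le_mul_of_nonneg_right hi.le hb
    have b := mul_le_mul_of_nonneg_right hi.le hw
    have c := mul_le_mul_of_nonneg_right lo.le h0
    linarith

variable {E : Type*} [NormedAddCommGroup E] [NormedSpace ℝ E]

structure Cf (φ : ℝ) (u1 u2 u3 u4 u5 u6 : E) (r1 r2 r3 r4 r5 r6 s1 s2 s3 s4 s5 s6 : ℝ) : Prop where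
  e2 : u2 = u1 + u3
  e4 : u4 = -u1
  e5 : u5 = -u2
  e6 : u6 = -u3
  p1 : 0 < r1
  p2 : 0 < r2
  p3 : 0 < r3
  p4 : 0 < r4
  p5 : 0 < r5
  p6 : 0 < r6
  d1 : r1 ≤ r6 + r2
  d2 : r2 ≤ r1 + r3
  d3 : r3 ≤ r2 + r4
  d4 : r4 ≤ r3 + r5
  d5 : r5 ≤ r4 + r6
  d6 : r6 ≤ r5 + r1
  o1 : 0 < ‖r2⁻¹ • u2 - r1⁻¹ • u1‖
  o3 : 0 < ‖r4⁻¹ • u4 - r3⁻¹ • u3‖
  o5 : 0 < ‖r6⁻¹ • u6 - r5⁻¹ • u5‖
  l1 : ‖r2⁻¹ • u2 - r1⁻¹ • u1‖ ≤ s1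
  l2 : ‖r3⁻¹ • u3 - r2⁻¹ • u2‖ ≤ s2
  l3 : ‖r4⁻¹ • u4 - r3⁻¹ • u3‖ ≤ s3
  l4 : ‖r5⁻¹ • u5 - r4⁻¹ • u4‖ ≤ s4
  l5 : ‖r6⁻¹ • u6 - r5⁻¹ • u5‖ ≤ s5
  l6 : ‖r1⁻¹ • u1 - r6⁻¹ • u6‖ ≤ s6
  g2 : 0 < dd r1 r2 r3 r4 → s2 ≤ be r1 r2 r3 r4 * ‖r2⁻¹ • u2 - r1⁻¹ • u1‖ +
    al r1 r2 r3 r4 * ‖r4⁻¹ • u4 - r3⁻¹ • u3‖
  g4 : 0 < dd r3 r4 r5 r6 → s4 ≤ be r3 r4 r5 r6 * ‖r4⁻¹ • u4 - r3⁻¹ • u3‖ +
    al r3 r4 r5 r6 * ‖r6⁻¹ • u6 - r5⁻¹ • u5‖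
  g6 : 0 < dd r5 r6 r1 r2 → s6 ≤ be r5 r6 r1 r2 * ‖r6⁻¹ • u6 - r5⁻¹ • u5‖ +
    al r5 r6 r1 r2 * ‖r2⁻¹ • u2 - r1⁻¹ • u1‖
  c1 : φ * (s1 + s2 + s3) ≤ s4 + s5 + s6
  c2 : φ * (s3 + s4 + s5) ≤ s6 + s1 + s2
  c3 : φ * (s5 + s6 + s1) ≤ s2 + s3 + s4

variable {u1 u2 u3 u4 u5 u6 : E} {s1 s2 s3 s4 s5 s6 : ℝ}

lemma Cf.cyc (H : Cf φ u1 u2 u3 u4 u5 u6 r1 r2 r3 r4 r5 r6 s1 s2 s3 s4 s5 s6) :
    Cf φ u3 u4 u5 u6 u1 u2 r3 r4 r5 r6 r1 r2 s3 s4 s5 s6 s1 s2 :=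
  ⟨by rw [H.e4, H.e5, H.e2]; abel, H.e6, by rw [H.e4, neg_neg], by rw [H.e5, neg_neg], H.p3, H.p4,
    H.p5, H.p6, H.p1, H.p2, H.d3, H.d4, H.d5, H.d6, H.d1, H.d2, H.o3, H.o5, H.o1, H.l3, H.l4, H.l5,
    H.l6, H.l1, H.l2, H.g4, H.g6, H.g2, H.c2, H.c3, H.c1⟩

lemma al0 (h4 : 0 < r4) (h : r2 ≤ r1 + r3) (hD : 0 < dd r1 r2 r3 r4) : 0 ≤ al r1 r2 r3 r4 :=
  div_nonneg (mul_nonneg h4.le (by linarith)) hD.le

lemma be0 (h1 : 0 < r1) (h : r3 ≤ r2 + r4) (hD : 0 < dd r1 r2 r3 r4) : 0 ≤ be r1 r2 r3 r4 :=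
  div_nonneg (mul_nonneg h1.le (by linarith)) hD.le

lemma Cf.vec (H : Cf φ u1 u2 u3 u4 u5 u6 r1 r2 r3 r4 r5 r6 s1 s2 s3 s4 s5 s6)
    (hC : 0 < dd r3 r4 r5 r6) (hA : 0 < dd r5 r6 r1 r2) :
    (al r3 r4 r5 r6 + be r5 r6 r1 r2 + 1) • (r6⁻¹ • u6 - r5⁻¹ • u5) =
      -(r4⁻¹ • u4 - r1⁻¹ • u1) - al r5 r6 r1 r2 • (r2⁻¹ • u2 - r1⁻¹ • u1) -
        be r3 r4 r5 r6 • (r4⁻¹ • u4 - r3⁻¹ • u3) := by
  have := H.p1; have := H.p2; have := H.p3; have := H.p4; have := H.p5; have := H.p6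
  rw [H.e6, H.e5, H.e4, H.e2]
  unfold al be
  match_scalars <;> field_simp <;> unfold dd <;> ring

lemma Cf.ch (H : Cf φ u1 u2 u3 u4 u5 u6 r1 r2 r3 r4 r5 r6 s1 s2 s3 s4 s5 s6) :
    ‖r4⁻¹ • u4 - r1⁻¹ • u1‖ ≤ s1 + s2 + s3 := by
  have := norm_sub_le_norm_sub_add_norm_sub (r4⁻¹ • u4) (r3⁻¹ • u3) (r1⁻¹ • u1)
  have := norm_sub_le_norm_sub_add_norm_sub (r3⁻¹ • u3) (r2⁻¹ • u2) (r1⁻¹ • u1)
  linarith [H.l1, H.l2, H.l3]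

lemma Cf.I (P : Ph φ) (H : Cf φ u1 u2 u3 u4 u5 u6 r1 r2 r3 r4 r5 r6 s1 s2 s3 s4 s5 s6)
    (hA : 0 < dd r5 r6 r1 r2) {oa ob oc : ℝ} (hc : oc = ‖r2⁻¹ • u2 - r1⁻¹ • u1‖)
    (ha : oa = ‖r4⁻¹ • u4 - r3⁻¹ • u3‖) (hb : ob = ‖r6⁻¹ • u6 - r5⁻¹ • u5‖) :
    φ * (oa + ob + oc) + oa ≤ al r5 r6 r1 r2 * oc + be r5 r6 r1 r2 * ob := by
  have h := (capI P H.c1 H.c2 H.c3).1
  have := mul_le_mul_of_nonneg_left (add_le_add (add_le_add H.l3 H.l5) H.l1)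
    (show 0 ≤ φ by linarith [P.lo])
  subst ha hb hc
  linarith [H.g6 hA, H.l3]

lemma Cf.S (P : Ph φ) (H : Cf φ u1 u2 u3 u4 u5 u6 r1 r2 r3 r4 r5 r6 s1 s2 s3 s4 s5 s6)
    (hC : 0 < dd r3 r4 r5 r6) (hA : 0 < dd r5 r6 r1 r2) {oa ob oc : ℝ}
    (hc : oc = ‖r2⁻¹ • u2 - r1⁻¹ • u1‖)
    (ha : oa = ‖r4⁻¹ • u4 - r3⁻¹ • u3‖) (hb : ob = ‖r6⁻¹ • u6 - r5⁻¹ • u5‖) :
    2 * ‖r4⁻¹ • u4 - r1⁻¹ • u1‖ + φ * (oa + oc) ≤ φ * (be r3 r4 r5 r6 * oa + al r3 r4 r5 r6 * ob +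
      (be r5 r6 r1 r2 * ob + al r5 r6 r1 r2 * oc)) := by
  have h := (capI P H.c1 H.c2 H.c3).2
  have f0 : 0 ≤ φ := by linarith [P.lo]
  have := mul_le_mul_of_nonneg_left (add_le_add H.l3 H.l1) f0
  have := mul_le_mul_of_nonneg_left (add_le_add (H.g4 hC) (H.g6 hA)) f0
  subst ha hb hc
  linarith [H.ch]

lemma Cf.A (P : Ph φ) (H : Cf φ u1 u2 u3 u4 u5 u6 r1 r2 r3 r4 r5 r6 s1 s2 s3 s4 s5 s6)
    (hC : 0 < dd r3 r4 r5 r6) (hA : 0 < dd r5 r6 r1 r2) {oa ob oc : ℝ}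
    (hc : oc = ‖r2⁻¹ • u2 - r1⁻¹ • u1‖)
    (ha : oa = ‖r4⁻¹ • u4 - r3⁻¹ • u3‖) (hb : ob = ‖r6⁻¹ • u6 - r5⁻¹ • u5‖) :
    φ * (oa + ob + oc) ≤ 2 * (al r5 r6 r1 r2 * oc + be r3 r4 r5 r6 * oa) ∧
      1909 * (al r3 r4 r5 r6 * ob + be r5 r6 r1 r2 * ob + ob) + 8090 * (oa + ob + oc) ≤
        18091 * (al r5 r6 r1 r2 * oc + be r3 r4 r5 r6 * oa) := by
  have a1 := al0 H.p6 H.d4 hC
  have a2 := be0 H.p5 (by linarith [H.d1]) hA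
  have a3 := al0 H.p2 H.d6 hA
  have a4 := be0 H.p3 H.d5 hC
  have b := congrArg norm (H.vec hC hA)
  have b1 := norm_sub_le (-(r4⁻¹ • u4 - r1⁻¹ • u1) - al r5 r6 r1 r2 • (r2⁻¹ • u2 - r1⁻¹ • u1))
    (be r3 r4 r5 r6 • (r4⁻¹ • u4 - r3⁻¹ • u3))
  have b2 := norm_sub_le (-(r4⁻¹ • u4 - r1⁻¹ • u1)) (al r5 r6 r1 r2 • (r2⁻¹ • u2 - r1⁻¹ • u1))
  rw [norm_smul_of_nonneg (by positivity), ← hb] at b
  rw [norm_smul_of_nonneg a4, ← ha] at b1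
  rw [norm_smul_of_nonneg a3, ← hc, norm_neg] at b2
  have c := H.S P hC hA hc ha hb
  have i2 := H.I P hA hc ha hb
  have i1 := H.cyc.cyc.I P hC hb hc ha
  have q1 : 0 < oc := hc ▸ H.o1
  have q2 : 0 < oa := ha ▸ H.o3
  have q3 : 0 < ob := hb ▸ H.o5
  exact exA P rfl (by positivity) (by positivity) (by positivity) (by linarith)
    (by rw [show oa + ob + oc = oc + oa + ob by ring]; exact i1) i2

lemma Cf.bdd (P : Ph φ) (H : Cf φ u1 u2 u3 u4 u5 u6 r1 r2 r3 r4 r5 r6 s1 s2 s3 s4 s5 s6)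
    (hB : 0 < dd r1 r2 r3 r4) (hC : 0 < dd r3 r4 r5 r6) (hA : 0 < dd r5 r6 r1 r2) : False := by
  obtain ⟨oc, hc⟩ : ∃ o, o = ‖r2⁻¹ • u2 - r1⁻¹ • u1‖ := ⟨_, rfl⟩
  obtain ⟨oa, ha⟩ : ∃ o, o = ‖r4⁻¹ • u4 - r3⁻¹ • u3‖ := ⟨_, rfl⟩
  obtain ⟨ob, hb⟩ : ∃ o, o = ‖r6⁻¹ • u6 - r5⁻¹ • u5‖ := ⟨_, rfl⟩
  have q1 : 0 < oc := hc ▸ H.o1
  have q2 : 0 < oa := ha ▸ H.o3
  have q3 : 0 < ob := hb ▸ H.o5
  have a1 := al0 H.p6 H.d4 hC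
  have a2 := be0 H.p5 (by linarith [H.d1]) hA
  have a3 := al0 H.p2 H.d6 hA
  have a4 := be0 H.p3 H.d5 hC
  have a5 := al0 H.p4 H.d2 hB
  have a6 := be0 H.p1 H.d3 hB
  have i2 := H.I P hA hc ha hb
  have i1 := H.cyc.cyc.I P hC hb hc ha
  have i0 := H.cyc.I P hB ha hb hc
  have k2 := H.A P hC hA hc ha hb
  have k0 := H.cyc.A P hA hB ha hb hc
  have k1 := H.cyc.cyc.A P hB hC hb hc ha
  rw [show oc + oa + ob = oa + ob + oc by ring] at i1 k1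
  rw [show ob + oc + oa = oa + ob + oc by ring] at i0 k0
  have X : Hx φ (al r1 r2 r3 r4 * oa) (al r3 r4 r5 r6 * ob) (al r5 r6 r1 r2 * oc)
      (be r3 r4 r5 r6 * oa) (be r5 r6 r1 r2 * ob) (be r1 r2 r3 r4 * oc) oa ob oc :=
    ⟨by positivity, by positivity, by positivity, by positivity, by positivity, by positivity,
      q2, q3, q1, i0, i1, i2, k0.1, k1.1, k2.1, k0.2, k1.2, k2.2⟩
  exact (core P X).not_ge (tt_le H.p1 H.p2 H.p3 H.p4 H.p5 H.p6 X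
    (cn_b H.p1 H.p2 H.p3 H.p4 q1 q2 hB) (cn_b H.p3 H.p4 H.p5 H.p6 q2 q3 hC)
    (cn_b H.p5 H.p6 H.p1 H.p2 q3 q1 hA))

lemma Cf.rat (P : Ph φ) (H : Cf φ u1 u2 u3 u4 u5 u6 r1 r2 r3 r4 r5 r6 s1 s2 s3 s4 s5 s6)
    (hB : dd r1 r2 r3 r4 ≤ 0) {oa oc : ℝ} (hc : oc = ‖r2⁻¹ • u2 - r1⁻¹ • u1‖)
    (ha : oa = ‖r4⁻¹ • u4 - r3⁻¹ • u3‖) : 0 < dd r3 r4 r5 r6 ∧ 0 < dd r5 r6 r1 r2 ∧
      2 * |r2 * oc - r3 * oa| ≤ φ * (r2 * oc + r3 * oa) := by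
  have p1 := H.p1; have p2 := H.p2; have p3 := H.p3; have p4 := H.p4; have p5 := H.p5
  have p6 := H.p6
  have f0 : 0 ≤ φ := by linarith [P.lo]
  have t1 : 0 < r4 - r3 := by
    unfold dd at hB
    by_contra h
    have := mul_le_mul_of_nonneg_left (not_lt.1 h) p1.le
    have := mul_pos p2 p4
    linarith
  have t2 : 0 < r1 - r2 := by
    unfold dd at hB
    by_contra h
    have := mul_le_mul_of_nonneg_left (not_lt.1 h) p4.le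
    have := mul_pos p1 p3
    linarith
  have hC : 0 < dd r3 r4 r5 r6 := by
    have := mul_pos t1 p6; have := mul_pos p3 p5; unfold dd; linarith
  have hA : 0 < dd r5 r6 r1 r2 := by
    have := mul_pos t2 p5; have := mul_pos p6 p2; unfold dd; linarith
  have hZ : 0 ≤ dd r5 r6 r1 r2 + dd r1 r2 r3 r4 + dd r3 r4 r5 r6 := by
    have := mul_nonneg t2.le (show 0 ≤ r5 - (r4 - r3) by linarith [H.d4])
    have := mul_pos t1 p6; have := mul_pos p3 p5; have := mul_pos p6 p2; have := mul_pos p2 p3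
    unfold dd; linarith
  refine ⟨hC, hA, ?_⟩
  obtain ⟨ob, hb⟩ : ∃ o, o = ‖r6⁻¹ • u6 - r5⁻¹ • u5‖ := ⟨_, rfl⟩
  have q1 : 0 < oc := hc ▸ H.o1
  have q2 : 0 < oa := ha ▸ H.o3
  have q3 : 0 < ob := hb ▸ H.o5
  have c := H.S P hC hA hc ha hb
  have a1 := al0 H.p6 H.d4 hC
  have a2 := be0 H.p5 (by linarith [H.d1]) hA
  obtain ⟨D, hD⟩ : ∃ D, D = -dd r1 r2 r3 r4 := ⟨_, rfl⟩
  have D0 : 0 ≤ D := by linarith
  have v1 : D • -(r4⁻¹ • u4 - r1⁻¹ • u1) = (r2 * (r1 + r4)) • (r2⁻¹ • u2 - r1⁻¹ • u1) +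
      (r3 * (r1 + r4)) • (r4⁻¹ • u4 - r3⁻¹ • u3) := by
    rw [H.e4, H.e2, hD]
    unfold dd
    match_scalars <;> field_simp <;> ring
  have w1 : 0 ≤ r2 * (r1 + r4) - D * al r5 r6 r1 r2 := by
    have : r2 * (r1 + r4) - D * al r5 r6 r1 r2 = r2 * r1 * (dd r5 r6 r1 r2 + dd r1 r2 r3 r4 +
        dd r3 r4 r5 r6) / dd r5 r6 r1 r2 := by
      rw [hD]; unfold al; field_simp; unfold dd; ring
    rw [this]; positivity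
  have w2 : 0 ≤ r3 * (r1 + r4) - D * be r3 r4 r5 r6 := by
    have : r3 * (r1 + r4) - D * be r3 r4 r5 r6 = r3 * r4 * (dd r5 r6 r1 r2 + dd r1 r2 r3 r4 +
        dd r3 r4 r5 r6) / dd r3 r4 r5 r6 := by
      rw [hD]; unfold be; field_simp; unfold dd; ring
    rw [this]; positivity
  have v2 : (D * (al r3 r4 r5 r6 + be r5 r6 r1 r2 + 1)) • (r6⁻¹ • u6 - r5⁻¹ • u5) =
      (r2 * (r1 + r4) - D * al r5 r6 r1 r2) • (r2⁻¹ • u2 - r1⁻¹ • u1) +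
      (r3 * (r1 + r4) - D * be r3 r4 r5 r6) • (r4⁻¹ • u4 - r3⁻¹ • u3) := by
    rw [mul_smul, H.vec hC hA, smul_sub, smul_sub, v1]
    module
  have n2 := (congrArg norm v2).trans_le (norm_add_le _ _)
  rw [norm_smul_of_nonneg (by positivity), norm_smul_of_nonneg w1, norm_smul_of_nonneg w2,
    ← ha, ← hb, ← hc] at n2
  have n1 := abs_norm_sub_norm_le ((r2 * (r1 + r4)) • (r2⁻¹ • u2 - r1⁻¹ • u1))
    (-((r3 * (r1 + r4)) • (r4⁻¹ • u4 - r3⁻¹ • u3)))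
  rw [sub_neg_eq_add, ← v1, norm_neg, norm_smul_of_nonneg (by positivity),
    norm_smul_of_nonneg (by positivity), norm_smul_of_nonneg D0, norm_neg, ← ha, ← hc,
    show r2 * (r1 + r4) * oc - r3 * (r1 + r4) * oa = (r1 + r4) * (r2 * oc - r3 * oa) by ring,
    abs_mul, abs_of_pos (by positivity)] at n1
  have n3 := mul_le_mul_of_nonneg_left c D0
  have n4 := mul_le_mul_of_nonneg_left n2 f0
  have n5 : 0 ≤ φ * D * (oa + ob + oc) := by positivity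
  refine le_of_mul_le_mul_left ?_ (show 0 < r1 + r4 by positivity)
  linarith

lemma Cf.unb (P : Ph φ) (H : Cf φ u1 u2 u3 u4 u5 u6 r1 r2 r3 r4 r5 r6 s1 s2 s3 s4 s5 s6)
    (hB : dd r1 r2 r3 r4 ≤ 0) : False := by
  obtain ⟨oc, hc⟩ : ∃ o, o = ‖r2⁻¹ • u2 - r1⁻¹ • u1‖ := ⟨_, rfl⟩
  obtain ⟨oa, ha⟩ : ∃ o, o = ‖r4⁻¹ • u4 - r3⁻¹ • u3‖ := ⟨_, rfl⟩
  obtain ⟨ob, hb⟩ : ∃ o, o = ‖r6⁻¹ • u6 - r5⁻¹ • u5‖ := ⟨_, rfl⟩
  obtain ⟨hC, hA, hr⟩ := H.rat P hB hc ha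
  have q1 : 0 < oc := hc ▸ H.o1
  have q2 : 0 < oa := ha ▸ H.o3
  have q3 : 0 < ob := hb ▸ H.o5
  have a1 := al0 H.p6 H.d4 hC
  have a2 := be0 H.p5 (by linarith [H.d1]) hA
  have a3 := al0 H.p2 H.d6 hA
  have a4 := be0 H.p3 H.d5 hC
  have i2 := H.I P hA hc ha hb
  have i1 := H.cyc.cyc.I P hC hb hc ha
  have k2 := H.A P hC hA hc ha hb
  rw [show oc + oa + ob = oa + ob + oc by ring] at i1
  have B := fun M hM => cn_u (M := M) H.p1 H.p2 H.p3 H.p4 q1 q2 hM hB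
  have C := cn_b H.p3 H.p4 H.p5 H.p6 q2 q3 hC
  have A := cn_b H.p5 H.p6 H.p1 H.p2 q3 q1 hA
  have b1 : 0 ≤ al r3 r4 r5 r6 * ob := by positivity
  have b2 : 0 ≤ al r5 r6 r1 r2 * oc := by positivity
  have b3 : 0 ≤ be r3 r4 r5 r6 * oa := by positivity
  have b4 : 0 ≤ be r5 r6 r1 r2 * ob := by positivity
  have y0 := mul_pos H.p2 q1
  have x0 := mul_pos H.p3 q2
  generalize al r3 r4 r5 r6 * ob = Xb at *
  generalize al r5 r6 r1 r2 * oc = Xc at *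
  generalize be r3 r4 r5 r6 * oa = Ya at *
  generalize be r5 r6 r1 r2 * ob = Yb at *
  generalize r2 * oc = y at *
  generalize r3 * oa = x at *
  have hh := mul_le_mul_of_nonneg_right P.hi.le (show 0 ≤ y + x by positivity)
  have j1 := le_abs_self (y - x)
  have j2 := neg_abs_le (y - x)
  obtain ⟨N, hN⟩ : ∃ N, N = 10000 * (Xc + Ya + (oa + ob + oc)) := ⟨_, rfl⟩
  have N0 : 0 < N := by rw [hN]; positivity
  have m1 : N ≤ (N / x + N / y) * x := by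
    rw [add_mul, div_mul_cancel₀ _ x0.ne']; exact le_add_of_nonneg_right (by positivity)
  have m2 : N ≤ (N / x + N / y) * y := by
    rw [add_mul, div_mul_cancel₀ _ y0.ne']; exact le_add_of_nonneg_left (by positivity)
  have M0 : 0 < N / x + N / y := by positivity
  generalize N / x + N / y = M at *
  have m3 := mul_le_mul_of_nonneg_left (show 1909 * y + x ≤ 18091 * x by linarith) M0.le
  have m4 := mul_le_mul_of_nonneg_left (show 1909 * x + y ≤ 18091 * y by linarith) M0.le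
  have m5 := mul_le_mul_of_nonneg_right P.hi.le (show 0 ≤ oa + ob + oc by positivity)
  have X : Hx φ (M * x) Xb Xc Ya Yb (M * y) oa ob oc :=
    ⟨by positivity, b1, b2, b3, b4, by positivity, q2, q3, q1, by linarith, i1, i2, by linarith,
      by linarith, k2.1, by linarith, by linarith, k2.2⟩
  exact (core P X).not_ge (tt_le H.p1 H.p2 H.p3 H.p4 H.p5 H.p6 X (B M M0) C A)

theorem Cf.false (P : Ph φ) (H : Cf φ u1 u2 u3 u4 u5 u6 r1 r2 r3 r4 r5 r6 s1 s2 s3 s4 s5 s6) :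
    False :=
  H.bdd P (not_le.1 (H.unb P)) (not_le.1 (H.cyc.unb P)) (not_le.1 (H.cyc.cyc.unb P))

end Pool.Agent.H.MP_653fdd_gt
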