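import Pool.Agent.H.MP_653fdd_gt.A
import Pool.Agent.H.MP_653fdd_gt.E

namespace Pool.Agent.H.MP_653fdd_gt
open Set MeasureTheory Measure RealInnerProductSpace Topology
open scoped ENNReal

variable {K : Set E2} {φ : ℝ}

noncomputable def nu (K S : Set E2) : ℝ := (mu.restrict (frontier K)).real S

lemma nu_eq (K S : Set E2) : nu K S = (mu (frontier K ∩ S)).toReal := by
  rw [nu, measureReal_def, Measure.restrict_apply' isClosed_frontier.measurableSet, inter_comm]

lemma Bd.fm (h : Bd K) : IsFiniteMeasure (mu.restrict (frontier K)) :=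
  ⟨by simpa using h.fin⟩

lemma Bd.nt (h : Bd K) (S : Set E2) : mu (frontier K ∩ S) ≠ ⊤ :=
  ((measure_mono inter_subset_left).trans_lt h.fin).ne

lemma Bd.mono (h : Bd K) {S T : Set E2} (hS : ∀ y ∈ K, y ∈ S → y ∈ T) : nu K S ≤ nu K T := by
  rw [nu_eq, nu_eq]
  exact ENNReal.toReal_mono (h.nt _) (measure_mono fun y hy => ⟨hy.1, hS y (h.fr.1 hy.1).1 hy.2⟩)

lemma nu_un (K S T : Set E2) : nu K (S ∪ T) ≤ nu K S + nu K T := measureReal_union_le _ _

lemma Bd.dj (h : Bd K) {S T : Set E2} (hd : Disjoint S T) (hT : MeasurableSet T) :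
    nu K (S ∪ T) = nu K S + nu K T := by
  have := h.fm
  exact measureReal_union hd hT

lemma Bd.ge (h : Bd K) {S : Set E2} {x : ℝ} (hx : ENNReal.ofReal x ≤ mu (frontier K ∩ S)) :
    x ≤ nu K S := by
  rw [nu_eq]; exact (ENNReal.ofReal_le_iff_le_toReal (h.nt _)).1 hx

lemma nu_le {S : Set E2} {x : ℝ} (h0 : 0 ≤ x) (hx : mu (frontier K ∩ S) ≤ ENNReal.ofReal x) :
    nu K S ≤ x := by
  rw [nu_eq]; exact ENNReal.toReal_le_of_le_ofReal h0 hx

def ry (z d : E2) : Set E2 := {y | ∃ s : ℝ, 0 ≤ s ∧ y = z + s • d}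

lemma Bd.ry0 (h : Bd K) {z : E2} (hz : z ∈ interior K) (d : E2) : nu K (ry z d) = 0 := by
  rw [nu_eq, ry, h.ray hz d]; rfl

def FF (p q : E2) (A B : E2 →L[ℝ] ℝ) : Prop := (∀ w, A w • p + B w • q = w) ∧
  A p = 1 ∧ A q = 0 ∧ B p = 0 ∧ B q = 1

variable {p q : E2} {A B : E2 →L[ℝ] ℝ}

lemma FF.fr (h : FF p q A B) : Fr p q := ⟨A, B, h⟩

lemma FF.nx (h : FF p q A B) {r : E2} (e : r = q - p) : FF q r (A + B) (-A) := by
  obtain ⟨h, a1, a2, a3, a4⟩ := h
  subst e
  refine ⟨fun w => ?_, by simp [*], by simp [*], by simp [*], by simp [*]⟩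
  nth_rw 3 [← h w]
  simp only [_root_.add_apply, _root_.neg_apply]
  module

lemma FF.cone (h : FF p q A B) : cone p q = {w | 0 < A w ∧ 0 < B w} := by
  obtain ⟨h, a1, a2, a3, a4⟩ := h
  ext w
  constructor
  · rintro ⟨a, b, ha, hb, rfl⟩
    simp [*]
  · exact fun hw => ⟨_, _, hw.1, hw.2, (h w).symm⟩

lemma FF.ms (h : FF p q A B) : MeasurableSet (MP_653fdd_gt.cone p q) := by
  rw [h.cone]
  exact ((isOpen_lt continuous_const A.continuous).inter
    (isOpen_lt continuous_const B.continuous)).measurableSet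

lemma FF.cl (h : FF p q A B) {w : E2} (h1 : 0 < A w) (h2 : 0 ≤ B w) :
    w ∈ MP_653fdd_gt.cone p q ∪ ry 0 p := by
  rcases h2.eq_or_lt with e | e
  · refine Or.inr ⟨A w, h1.le, ?_⟩
    have := h.1 w
    rw [← e, zero_smul, add_zero] at this
    rw [zero_add, this]
  · rw [h.cone]; exact Or.inl ⟨h1, e⟩

lemma B0.gp (h : B0 K) (f : FF p q A B) : 0 < gauge K p :=
  h.pos fun e => one_ne_zero (f.fr.ind 1 0 (by simpa using e)).1

lemma B0.op (h : B0 K) (f : FF p q A B) {r s : ℝ} (hr : 0 < r) : 0 < ‖s⁻¹ • q - r⁻¹ • p‖ := by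
  rw [norm_pos_iff]
  intro e
  have := (f.fr.ind (-r⁻¹) s⁻¹ (by rw [← e]; module)).1
  simp [hr.ne'] at this

lemma B0.up' (h : B0 K) (f : FF p q A B) {u v : E2} (e1 : u = p - q) (e4 : v = q - p)
    (hD : 0 < dd (gauge K u) (gauge K p) (gauge K q) (gauge K v)) :
    nu K (cone p q) ≤ be (gauge K u) (gauge K p) (gauge K q) (gauge K v) *
      ‖(gauge K p)⁻¹ • p - (gauge K u)⁻¹ • u‖ + al (gauge K u) (gauge K p) (gauge K q) (gauge K v) *
      ‖(gauge K v)⁻¹ • v - (gauge K q)⁻¹ • q‖ := by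
  subst e1 e4
  have d2 := h.add (p - q) q
  have d3 := h.add p (q - p)
  rw [sub_add_cancel] at d2
  rw [add_sub_cancel] at d3
  have a := al0 (h.gp ((f.nx rfl).nx rfl)) d2 hD
  have p1 : 0 < gauge K (p - q) :=
    h.pos fun e => one_ne_zero (f.fr.ind 1 (-1) (by simpa [sub_eq_add_neg] using e)).1
  have b := be0 p1 d3 hD
  exact nu_le (by positivity) (h.upper f.fr rfl rfl rfl rfl rfl hD)

lemma B0.three (h : B0 K) {p q r s : E2} (f : FF p q A B) (e1 : r = q - p) (e2 : s = r - q) :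
    nu K (cone p q) + nu K (cone q r) + nu K (cone r s) ≤ nu K {w | 0 < B w} := by
  have f1 := f.nx e1
  have f2 := f1.nx e2
  rw [← h.dj _ f1.ms, ← h.dj _ f2.ms]
  · refine h.mono fun y _ hy => ?_
    rw [f.cone, f1.cone, f2.cone] at hy
    simp only [mem_union, mem_ofPred_eq, _root_.add_apply,
      _root_.neg_apply] at hy ⊢
    rcases hy with (hy | hy) | hy <;> linarith [hy.1, hy.2]
  all_goals
    simp only [f.cone, f1.cone, f2.cone, Set.disjoint_left, mem_union, mem_ofPred_eq,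
      _root_.add_apply, _root_.neg_apply]
  · rintro y (hy | hy) hy' <;> linarith [hy.1, hy.2, hy'.1, hy'.2]
  · rintro y hy hy'; linarith [hy.1, hy.2, hy'.1, hy'.2]

theorem B0.hex (h : B0 K) (P : Ph φ) (f1 : FF p q A B)
    (c1 : (1 + φ) * nu K {w | 0 < B w} ≤ nu K univ)
    (c2 : (1 + φ) * nu K {w | A w + B w < 0} ≤ nu K univ)
    (c3 : (1 + φ) * nu K {w | 0 < A w} ≤ nu K univ) : False := by
  have f2 := f1.nx rfl
  have f3 := f2.nx (r := -p) (by abel)
  have f4 := f3.nx (r := -q) (by abel)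
  have f5 := f4.nx (r := -(q - p)) (by abel)
  have f6 := f5.nx (r := p) (by abel)
  have t1 := h.three f1 rfl (s := -p) (by abel)
  have t2 := h.three f3 (r := -q) (by abel) (s := -(q - p)) (by abel)
  have t3 := h.three f5 (r := p) (by abel) (s := q) (by abel)
  have t2' : nu K {w | 0 < (-(A + B)) w} ≤ nu K {w | A w + B w < 0} := h.mono fun y _ hy => by
    simp only [mem_ofPred_eq, _root_.add_apply, _root_.neg_apply] at hy ⊢
    linarith
  have t3' : nu K {w | 0 < (-(A + B + -A + -(A + B))) w} ≤ nu K {w | 0 < A w} :=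
    h.mono fun y _ hy => by
      simp only [mem_ofPred_eq, _root_.add_apply, _root_.neg_apply] at hy ⊢
      linarith
  have u : ∀ a b, nu K (cone a b ∪ ry 0 a) ≤ nu K (cone a b) := fun a b =>
    (nu_un _ _ _).trans_eq (by rw [h.ry0 h.z, add_zero])
  have tot : nu K univ ≤ nu K (((cone p q ∪ ry 0 p) ∪ (cone q (q - p) ∪ ry 0 q) ∪
      (cone (q - p) (-p) ∪ ry 0 (q - p))) ∪ ((cone (-p) (-q) ∪ ry 0 (-p)) ∪
      (cone (-q) (-(q - p)) ∪ ry 0 (-q)) ∪ (cone (-(q - p)) p ∪ ry 0 (-(q - p))))) := by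
    refine h.mono fun y _ _ => ?_
    have g1 := f1.cl (w := y)
    have g2 := f2.cl (w := y)
    have g3 := f3.cl (w := y)
    have g4 := f4.cl (w := y)
    have g5 := f5.cl (w := y)
    have g6 := f6.cl (w := y)
    simp only [_root_.add_apply, _root_.neg_apply] at g2 g3 g4 g5 g6
    rcases lt_trichotomy (A y) 0 with a | a | a
    · rcases le_or_gt (B y) 0 with b | b
      · exact Or.inr (Or.inl (Or.inl (g4 (by linarith) (by linarith))))
      · rcases le_or_gt (A y + B y) 0 with c | c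
        · exact Or.inl (Or.inr (g3 (by linarith) (by linarith)))
        · exact Or.inl (Or.inl (Or.inr (g2 (by linarith) (by linarith))))
    · rcases lt_trichotomy (B y) 0 with b | b | b
      · exact Or.inr (Or.inl (Or.inr (g5 (by linarith) (by linarith))))
      · refine Or.inl (Or.inl (Or.inl (Or.inr ⟨0, le_rfl, ?_⟩)))
        rw [← f1.1 y, a, b]; simp
      · exact Or.inl (Or.inl (Or.inr (g2 (by linarith) (by linarith))))
    · rcases le_or_gt 0 (B y) with b | b
      · exact Or.inl (Or.inl (Or.inl (g1 a b)))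
      · rcases le_or_gt 0 (A y + B y) with c | c
        · exact Or.inr (Or.inr (g6 (by linarith) (by linarith)))
        · exact Or.inr (Or.inl (Or.inr (g5 (by linarith) (by linarith))))
  have tot2 := tot.trans ((nu_un _ _ _).trans (add_le_add
    ((nu_un _ _ _).trans (add_le_add ((nu_un _ _ _).trans (add_le_add (u _ _) (u _ _))) (u _ _)))
    ((nu_un _ _ _).trans (add_le_add ((nu_un _ _ _).trans (add_le_add (u _ _) (u _ _))) (u _ _)))))
  have φ0 : 0 ≤ 1 + φ := by linarith [P.lo]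
  have s1 := mul_le_mul_of_nonneg_left t1 φ0
  have s2 := mul_le_mul_of_nonneg_left (t2.trans t2') φ0
  have s3 := mul_le_mul_of_nonneg_left (t3.trans t3') φ0
  have ad : ∀ {a b c : E2}, a = b + c → gauge K a ≤ gauge K b + gauge K c := fun e => e ▸ h.add _ _
  exact Cf.false (u1 := p) (u2 := q) (u3 := q - p) (u4 := -p) (u5 := -q) (u6 := -(q - p)) P
    ⟨by abel, rfl, rfl, rfl, h.gp f1, h.gp f2, h.gp f3, h.gp f4, h.gp f5, h.gp f6,
      ad (by abel), ad (by abel), ad (by abel), ad (by abel), ad (by abel), ad (by abel),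
      h.op f1 (h.gp f1), h.op f3 (h.gp f3), h.op f5 (h.gp f5),
      h.ge (h.chord _ _ f1.fr.ind), h.ge (h.chord _ _ f2.fr.ind), h.ge (h.chord _ _ f3.fr.ind),
      h.ge (h.chord _ _ f4.fr.ind), h.ge (h.chord _ _ f5.fr.ind), h.ge (h.chord _ _ f6.fr.ind),
      h.up' f2 (by abel) (by abel), h.up' f4 (by abel) (by abel), h.up' f6 (by abel) (by abel),
      by linarith, by linarith, by linarith⟩

end Pool.Agent.H.MP_653fdd_gt
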