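import Pool.Agent.H.MP_653fdd_gt.C

namespace Pool.Agent.H.MP_653fdd_gt
open Set MeasureTheory Measure RealInnerProductSpace Topology
open scoped ENNReal

variable {K : Set E2} {φ : ℝ}

lemma in2 (v w : E2) : ⟪v, w⟫ = v 0 * w 0 + v 1 * w 1 := by
  simp [PiLp.inner_apply, Fin.sum_univ_two]; ring

lemma rot {v : E2} (hv : ‖v‖ = 1) : ∃ u : E2, ‖u‖ = 1 ∧ ⟪u, v⟫ = 0 ∧
    ∀ w, w = ⟪v, w⟫ • v + ⟪u, w⟫ • u := by
  have h : v 0 * v 0 + v 1 * v 1 = 1 := by rw [← in2, real_inner_self_eq_norm_sq, hv]; norm_num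
  refine ⟨!₂[-v 1, v 0], ?_, by rw [in2]; simp; ring, fun w => ?_⟩
  · rw [← sq_eq_sq₀ (by positivity) zero_le_one, ← real_inner_self_eq_norm_sq, in2]
    simp; linarith
  · ext i
    fin_cases i <;> simp [in2]
    · linear_combination (-w 0) * h
    · linear_combination (-w 1) * h

lemma aff (v y z : E2) (t : ℝ) : ⟪v, y + t • (z - y)⟫ = ⟪v, y⟫ + t * (⟪v, z⟫ - ⟪v, y⟫) := by
  rw [inner_add_right, real_inner_smul_right, inner_sub_right]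

lemma Bd.cb (h : Bd K) {y z : E2} (hy : y ∈ K) (hz : z ∈ K) {t : ℝ} (h0 : 0 ≤ t) (h1 : t ≤ 1) :
    y + t • (z - y) ∈ K := h.cv.add_smul_sub_mem hy hz ⟨h0, h1⟩

lemma push {z : E2} (hz : z ∈ interior K) (v : E2) : ∃ ε : ℝ, 0 < ε ∧ z + ε • v ∈ K := by
  have c : Continuous fun t : ℝ => z + t • v := by fun_prop
  have : ∀ᶠ t : ℝ in 𝓝 0, z + t • v ∈ K :=
    c.continuousAt.eventually_mem (by simpa using mem_interior_iff_mem_nhds.1 hz)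
  obtain ⟨t, h1, h2⟩ := ((this.filter_mono nhdsWithin_le_nhds).and
    (self_mem_nhdsWithin (s := Ioi 0))).exists
  exact ⟨t, h2, h1⟩

lemma Bd.mid (h : Bd K) {v y z : E2} {τ : ℝ} (hy : y ∈ K) (hz : z ∈ interior K) (h1 : ⟪v, y⟫ < τ)
    (h2 : τ ≤ ⟪v, z⟫) : ∃ t : ℝ, 0 < t ∧ t ≤ 1 ∧ y + t • (z - y) ∈ interior K ∧
      ⟪v, y + t • (z - y)⟫ = τ := by
  have p : 0 < ⟪v, z⟫ - ⟪v, y⟫ := by linarith
  have a : 0 < (τ - ⟪v, y⟫) / (⟪v, z⟫ - ⟪v, y⟫) := div_pos (by linarith) p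
  have b : (τ - ⟪v, y⟫) / (⟪v, z⟫ - ⟪v, y⟫) ≤ 1 := (div_le_one p).2 (by linarith)
  refine ⟨_, a, b, h.cv.add_smul_sub_mem_interior hy hz ⟨a, b⟩, ?_⟩
  rw [aff, div_mul_cancel₀ _ p.ne']; ring

lemma Bd.thru (h : Bd K) {v y y' : E2} {τ : ℝ} (hy : y ∈ K) (hy' : y' ∈ K) (h1 : ⟪v, y⟫ < τ)
    (h2 : τ < ⟪v, y'⟫) : ∃ z ∈ interior K, ⟪v, z⟫ = τ := by
  obtain ⟨z, hz⟩ := h.ne
  rcases le_total τ ⟪v, z⟫ with l | l
  · obtain ⟨t, -, -, a, b⟩ := h.mid hy hz h1 l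
    exact ⟨_, a, b⟩
  · obtain ⟨t, -, -, a, b⟩ := h.mid (v := -v) (τ := -τ) hy' hz (by rw [inner_neg_left]; linarith)
      (by rw [inner_neg_left]; linarith)
    exact ⟨_, a, by rw [inner_neg_left] at b; linarith⟩

lemma Bd.edge (h : Bd K) {v : E2} (hv : ‖v‖ = 1) {τ : ℝ} (hτ : ∀ y ∈ K, ⟪v, y⟫ ≤ τ) :
    0 < nu K {y | ⟪v, y⟫ < τ} ∧ nu K univ ≤ 2 * nu K {y | ⟪v, y⟫ < τ} := by
  obtain ⟨u, u1, u2, u3⟩ := rot hv
  have vv : ⟪v, v⟫ = 1 := by rw [real_inner_self_eq_norm_sq, hv]; norm_num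
  have uu : ⟪u, u⟫ = 1 := by rw [real_inner_self_eq_norm_sq, u1]; norm_num
  have cu : Continuous fun y : E2 => ⟪u, y⟫ := by fun_prop
  have cv : Continuous fun y : E2 => ⟪v, y⟫ := by fun_prop
  have ne := h.ne.mono interior_subset
  obtain ⟨p, hp, p1⟩ := h.cp.exists_isMinOn ne cu.continuousOn
  obtain ⟨q, hq, q1⟩ := h.cp.exists_isMaxOn ne cu.continuousOn
  have pq : ⟪u, p⟫ < ⟪u, q⟫ := by
    obtain ⟨z, hz⟩ := h.ne
    obtain ⟨ε, e0, e1⟩ := push hz u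
    have a : ⟪u, z + ε • u⟫ ≤ ⟪u, q⟫ := q1 e1
    have b : ⟪u, p⟫ ≤ ⟪u, z⟫ := p1 (interior_subset hz)
    rw [inner_add_right, real_inner_smul_right, uu] at a
    linarith
  have lo : ⟪u, q⟫ - ⟪u, p⟫ ≤ nu K {y | ⟪v, y⟫ < τ} := by
    refine h.ge (low _ (fun y => ⟪u, y⟫) (LipschitzWith.of_dist_le_mul fun a b => ?_) _ _ fun s hs => ?_)
    · have := abs_real_inner_le_norm u (a - b)
      rw [u1, inner_sub_right] at this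
      simpa [Real.dist_eq, dist_eq_norm] using this
    · obtain ⟨z, hz, z1⟩ := h.thru hp hq hs.1 hs.2
      obtain ⟨ε, e0, e1⟩ := push hz v
      have a := hτ _ e1
      rw [inner_add_right, real_inner_smul_right, vv] at a
      obtain ⟨y, ⟨y1, y2⟩, y3⟩ := (h.cp.inter_right (isClosed_eq cu (continuous_const (y := s)))).exists_isMinOn
        ⟨z, interior_subset hz, z1⟩ cv.continuousOn
      have b : ⟪v, y⟫ ≤ ⟪v, z⟫ := y3 ⟨interior_subset hz, z1⟩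
      refine ⟨y, ⟨h.fr.2 ⟨y1, fun hi => ?_⟩, show ⟪v, y⟫ < τ by linarith⟩, y2⟩
      obtain ⟨δ, d0, d1⟩ := push hi (-v)
      have c : ⟪v, y⟫ ≤ ⟪v, y + δ • -v⟫ := y3 ⟨d1, by
        show ⟪u, _⟫ = s
        rw [inner_add_right, real_inner_smul_right, inner_neg_right, u2]; simpa using y2⟩
      rw [inner_add_right, real_inner_smul_right, inner_neg_right, vv] at c
      linarith
  have hi : nu K (sg (τ • v + ⟪u, p⟫ • u) u (⟪u, q⟫ - ⟪u, p⟫)) ≤ ⟪u, q⟫ - ⟪u, p⟫ := by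
    refine nu_le (by linarith) ((measure_mono inter_subset_right).trans
      ((sg_le _ _ (by linarith)).trans_eq ?_))
    rw [u1, mul_one]
  have tot : nu K univ ≤ nu K ({y | ⟪v, y⟫ < τ} ∪ sg (τ • v + ⟪u, p⟫ • u) u (⟪u, q⟫ - ⟪u, p⟫)) := by
    refine h.mono fun y hy _ => ?_
    rcases (hτ y hy).eq_or_lt with e | e
    · refine Or.inr ⟨⟪u, y⟫ - ⟪u, p⟫, sub_nonneg.2 (p1 hy), sub_le_sub_right (q1 hy) _, ?_⟩
      nth_rw 1 [u3 y]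
      rw [e]; module
    · exact Or.inl e
  have := nu_un K {y | ⟪v, y⟫ < τ} (sg (τ • v + ⟪u, p⟫ • u) u (⟪u, q⟫ - ⟪u, p⟫))
  constructor <;> linarith

def Sm (φ : ℝ) (K : Set E2) (v : E2) (τ : ℝ) : Prop :=
  ‖v‖ = 1 ∧ (1 + φ) * nu K {y | ⟪v, y⟫ < τ} ≤ nu K univ

lemma Bd.one (h : Bd K) (P : Ph φ) {v : E2} {τ : ℝ} (s : Sm φ K v τ) : ∃ y ∈ K, τ < ⟪v, y⟫ := by
  by_contra hh
  push Not at hh
  obtain ⟨a, b⟩ := h.edge s.1 hh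
  nlinarith [s.2, P.lo]

lemma Bd.pos (h : Bd K) : 0 < nu K univ := by
  obtain ⟨R, R0, hR⟩ := h.cp.isBounded.exists_pos_norm_lt
  have e : ‖(EuclideanSpace.single 0 1 : E2)‖ = 1 := by simp
  refine (h.edge e (τ := R) fun y hy => ?_).1.trans_le (h.mono fun _ _ _ => trivial)
  have := real_inner_le_norm (EuclideanSpace.single 0 1 : E2) y
  rw [e] at this
  linarith [hR y hy]

lemma Bd.nd (h : Bd K) {a b c y z : E2} {α β γ : ℝ} (hy : y ∈ K) (hz : z ∈ K) (h1 : α < ⟪a, y⟫)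
    (h2 : β ≤ ⟪b, y⟫) (h3 : β < ⟪b, z⟫) (h4 : γ ≤ ⟪c, y⟫) (h5 : γ < ⟪c, z⟫) :
    ∃ w ∈ K, α < ⟪a, w⟫ ∧ β < ⟪b, w⟫ ∧ γ < ⟪c, w⟫ := by
  have c : Continuous fun t : ℝ => ⟪a, y + t • (z - y)⟫ := by fun_prop
  have : ∀ᶠ t : ℝ in 𝓝 0, α < ⟪a, y + t • (z - y)⟫ :=
    c.continuousAt.eventually (lt_mem_nhds (by simpa using h1))
  obtain ⟨t, t1, t2, t3⟩ := ((this.filter_mono nhdsWithin_le_nhds).and
    (Ioo_mem_nhdsGT (zero_lt_one' ℝ))).exists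
  refine ⟨_, h.cb hy hz t2.le t3.le, t1, ?_, ?_⟩ <;> rw [aff] <;> nlinarith

lemma Bd.two (h : Bd K) (P : Ph φ) {v w : E2} {σ τ : ℝ} (s1 : Sm φ K v σ) (s2 : Sm φ K w τ) :
    ∃ y ∈ K, σ < ⟪v, y⟫ ∧ τ < ⟪w, y⟫ := by
  by_contra hh
  obtain ⟨y1, a1, b1⟩ := h.one P s1
  obtain ⟨y2, a2, b2⟩ := h.one P s2
  have c : ⟪v, y2⟫ < σ := by
    by_contra c
    obtain ⟨y, a, b, d, -⟩ := h.nd a2 a1 b2 (not_lt.1 c) b1 (not_lt.1 c) b1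
    exact hh ⟨y, a, d, b⟩
  obtain ⟨z, z1, z2⟩ := h.thru a2 a1 c b1
  obtain ⟨u, -, -, u3⟩ := rot s1.1
  have tot : nu K univ ≤ nu K (({y | ⟪v, y⟫ < σ} ∪ {y | ⟪w, y⟫ < τ}) ∪ (ry z u ∪ ry z (-u))) := by
    refine h.mono fun y hy _ => ?_
    rcases lt_trichotomy ⟪v, y⟫ σ with l | l | l
    · exact Or.inl (Or.inl l)
    · have e : y = z + (⟪u, y⟫ - ⟪u, z⟫) • u := by
        nth_rw 1 [u3 y, u3 z]
        rw [l, z2]; module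
      rcases le_total 0 (⟪u, y⟫ - ⟪u, z⟫) with k | k
      · exact Or.inr (Or.inl ⟨_, k, e⟩)
      · exact Or.inr (Or.inr ⟨_, neg_nonneg.2 k, by rw [neg_smul_neg]; exact e⟩)
    · refine Or.inl (Or.inr (show ⟪w, y⟫ < τ from ?_))
      by_contra k
      obtain ⟨y, a, b, d, -⟩ := h.nd hy a2 l (not_lt.1 k) b2 (not_lt.1 k) b2
      exact hh ⟨y, a, b, d⟩
  have t2 := tot.trans ((nu_un _ _ _).trans (add_le_add (nu_un _ _ _) (nu_un _ _ _)))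
  rw [h.ry0 z1, h.ry0 z1] at t2
  have := h.pos
  have m := mul_le_mul_of_nonneg_left t2 (show 0 ≤ 1 + φ by linarith [P.lo])
  nlinarith [s1.2, s2.2, P.lo]

lemma sgn {c1 c2 c3 a1 a2 a3 b1 b2 b3 d1 d2 d3 : ℝ} (e1 : c1 * a1 + c2 * a2 + c3 * a3 = 0)
    (e2 : c1 * b1 + c2 * b2 + c3 * b3 = 0) (e3 : c1 * d1 + c2 * d2 + c3 * d3 = 0) (h : 0 < c2)
    (a2' : 0 < a2) (a3' : 0 < a3) (a1' : a1 < 0) (b1' : 0 < b1) (b2' : b2 < 0) (b3' : 0 < b3)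
    (d1' : 0 < d1) (d2' : 0 < d2) (d3' : d3 < 0) : 0 < c1 ∧ 0 < c3 := by
  have := mul_pos h a2'
  have := mul_pos h d2'
  have := mul_pos h (neg_pos.2 b2')
  rcases le_or_gt c1 0 with l | l <;> rcases le_or_gt c3 0 with k | k
  · nlinarith [mul_nonneg (neg_nonneg.2 l) b1'.le, mul_nonneg (neg_nonneg.2 k) b3'.le]
  · nlinarith [mul_nonneg (neg_nonneg.2 l) (neg_pos.2 a1').le, mul_pos k a3']
  · nlinarith [mul_nonneg (neg_nonneg.2 k) (neg_pos.2 d3').le, mul_pos l d1']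
  · exact ⟨l, k⟩

lemma frame (a b : E2) (h : a 0 * b 1 - a 1 * b 0 ≠ 0) :
    ∃ p q, FF p q (innerSL ℝ a) (innerSL ℝ b) := by
  refine ⟨(a 0 * b 1 - a 1 * b 0)⁻¹ • !₂[b 1, -b 0], (a 0 * b 1 - a 1 * b 0)⁻¹ • !₂[-a 1, a 0],
    fun w => ?_, ?_, ?_, ?_, ?_⟩
  · ext i
    fin_cases i <;> simp [in2] <;> field_simp <;> ring
  all_goals simp [in2]
  all_goals first | (right; ring) | (field_simp; ring)

lemma lam {v1 v2 v3 d1 d2 d3 : E2} (a1 : ⟪v1, d1⟫ < 0) (a2 : 0 < ⟪v2, d1⟫) (a3 : 0 < ⟪v3, d1⟫)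
    (b1 : 0 < ⟪v1, d2⟫) (b2 : ⟪v2, d2⟫ < 0) (b3 : 0 < ⟪v3, d2⟫) (c1 : 0 < ⟪v1, d3⟫)
    (c2 : 0 < ⟪v2, d3⟫) (c3 : ⟪v3, d3⟫ < 0) : ∃ l1 l2 l3 : ℝ, 0 < l1 ∧ 0 < l2 ∧ 0 < l3 ∧
      (∀ w, l1 * ⟪v1, w⟫ + l2 * ⟪v2, w⟫ + l3 * ⟪v3, w⟫ = 0) ∧ v3 0 * v1 1 - v3 1 * v1 0 ≠ 0 := by
  have e : ∀ w, (v2 0 * v3 1 - v2 1 * v3 0) * ⟪v1, w⟫ + (v3 0 * v1 1 - v3 1 * v1 0) * ⟪v2, w⟫ +
      (v1 0 * v2 1 - v1 1 * v2 0) * ⟪v3, w⟫ = 0 := fun w => by simp only [in2]; ring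
  have n : v3 0 * v1 1 - v3 1 * v1 0 ≠ 0 := fun n => by
    have : ⟪v3, d2⟫ * ⟪v1, d1⟫ - ⟪v3, d1⟫ * ⟪v1, d2⟫ =
        (v3 0 * v1 1 - v3 1 * v1 0) * (d2 0 * d1 1 - d2 1 * d1 0) := by simp only [in2]; ring
    rw [n] at this
    nlinarith [mul_pos b3 (neg_pos.2 a1), mul_pos a3 b1]
  rcases n.lt_or_gt with l | l
  · have e' : ∀ w, -(v2 0 * v3 1 - v2 1 * v3 0) * ⟪v1, w⟫ + -(v3 0 * v1 1 - v3 1 * v1 0) * ⟪v2, w⟫ +
      -(v1 0 * v2 1 - v1 1 * v2 0) * ⟪v3, w⟫ = 0 := fun w => by linarith [e w]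
    obtain ⟨x, y⟩ := sgn (e' d1) (e' d2) (e' d3) (neg_pos.2 l) a2 a3 a1 b1 b2 b3 c1 c2 c3
    exact ⟨_, _, _, x, neg_pos.2 l, y, e', n⟩
  · obtain ⟨x, y⟩ := sgn (e d1) (e d2) (e d3) l a2 a3 a1 b1 b2 b3 c1 c2 c3
    exact ⟨_, _, _, x, l, y, e, n⟩

lemma Bd.org (h : Bd K) (P : Ph φ) {v1 v2 v3 d1 d2 d3 : E2} (s1 : Sm φ K v1 0) (s2 : Sm φ K v2 0)
    (s3 : Sm φ K v3 0) (m1 : d1 ∈ K) (m2 : d2 ∈ K) (m3 : d3 ∈ K)
    (a1 : ⟪v1, d1⟫ < 0) (a2 : 0 < ⟪v2, d1⟫) (a3 : 0 < ⟪v3, d1⟫)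
    (b1 : 0 < ⟪v1, d2⟫) (b2 : ⟪v2, d2⟫ < 0) (b3 : 0 < ⟪v3, d2⟫) (c1 : 0 < ⟪v1, d3⟫)
    (c2 : 0 < ⟪v2, d3⟫) (c3 : ⟪v3, d3⟫ < 0) : False := by
  obtain ⟨l1, l2, l3, p1, p2, p3, e, n⟩ := lam a1 a2 a3 b1 b2 b3 c1 c2 c3
  obtain ⟨p, q, f⟩ := frame (-l3 • v3) (-l1 • v1) (by
    have := mul_ne_zero (mul_pos p1 p3).ne' n
    intro hh; apply this; simp at hh; linarith)
  have eA : ∀ w, innerSL ℝ (-l3 • v3) w = -(l3 * ⟪v3, w⟫) := fun w => by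
    rw [innerSL_apply_apply, real_inner_smul_left]; ring
  have eB : ∀ w, innerSL ℝ (-l1 • v1) w = -(l1 * ⟪v1, w⟫) := fun w => by
    rw [innerSL_apply_apply, real_inner_smul_left]; ring
  generalize innerSL ℝ (-l3 • v3) = A at *
  generalize innerSL ℝ (-l1 • v1) = B at *
  have z : (0 : E2) ∈ interior K := by
    by_contra hh
    obtain ⟨n, n0, hn⟩ := h.supp hh
    have k : ∀ w, ⟪n, w⟫ = A w * ⟪n, p⟫ + B w * ⟪n, q⟫ := fun w => by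
      nth_rw 1 [← f.1 w]
      rw [inner_add_right, real_inner_smul_right, real_inner_smul_right]
    have k1 := hn _ m1
    have k2 := hn _ m2
    have k3 := hn _ m3
    have k4 := real_inner_self_pos.2 n0
    rw [sub_zero, k] at k1 k2 k3
    rw [k] at k4
    have A1 : A d1 < 0 := by rw [eA]; linarith [mul_pos p3 a3]
    have S1 : 0 < A d1 + B d1 := by rw [eA, eB]; linarith [mul_pos p2 a2, e d1]
    have A2 : A d2 < 0 := by rw [eA]; linarith [mul_pos p3 b3]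
    have B2 : B d2 < 0 := by rw [eB]; linarith [mul_pos p1 b1]
    have B3 : B d3 < 0 := by rw [eB]; linarith [mul_pos p1 c1]
    have S3 : 0 < A d3 + B d3 := by rw [eA, eB]; linarith [mul_pos p2 c2, e d3]
    generalize ⟪n, p⟫ = α at *
    generalize ⟪n, q⟫ = β at *
    have g1 : β ≤ 0 := by
      by_contra g
      have g := not_le.1 g
      have : β < α := by by_contra t; nlinarith [mul_pos g S1]
      nlinarith [mul_pos (g.trans this) S3]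
    have g2 : α ≤ 0 := by
      by_contra g
      nlinarith [mul_pos (not_le.1 g) S3]
    have g3 : α = 0 := le_antisymm g2 (by by_contra t; nlinarith)
    have g4 : β = 0 := le_antisymm g1 (by by_contra t; nlinarith)
    rw [g3, g4] at k4
    simp at k4
  have φ0 : 0 ≤ 1 + φ := by linarith [P.lo]
  have t : ∀ {v : E2} {S : Set E2}, Sm φ K v 0 → (∀ y ∈ S, ⟪v, y⟫ < 0) → (1 + φ) * nu K S ≤ nu K univ :=
    fun s hs => (mul_le_mul_of_nonneg_left (h.mono fun y _ hy => hs y hy) φ0).trans s.2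
  refine B0.hex ⟨h, z⟩ P f (t s1 fun y hy => ?_) (t s2 fun y hy => ?_) (t s3 fun y hy => ?_)
  · have : 0 < B y := hy
    rw [eB] at this
    by_contra k; linarith [mul_nonneg p1.le (not_lt.1 k)]
  · have : A y + B y < 0 := hy
    rw [eA, eB] at this
    by_contra k; linarith [mul_nonneg p2.le (not_lt.1 k), e y]
  · have : 0 < A y := hy
    rw [eA] at this
    by_contra k; linarith [mul_nonneg p3.le (not_lt.1 k)]

lemma Bd.tr (h : Bd K) (x : E2) : Bd ((x + ·) ⁻¹' K) :=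
  ⟨h.cv.translate_preimage_right x, (Homeomorph.addLeft x).isCompact_preimage.2 h.cp, by
    obtain ⟨z, hz⟩ := h.ne
    have := (Homeomorph.addLeft x).preimage_interior K
    exact ⟨z - x, (Set.ext_iff.1 this _).1 (by simpa using hz)⟩⟩

lemma nu_tr (K S : Set E2) (x : E2) : nu ((x + ·) ⁻¹' K) ((x + ·) ⁻¹' S) = nu K S := by
  have : frontier ((x + ·) ⁻¹' K) = (x + ·) ⁻¹' frontier K :=
    ((Homeomorph.addLeft x).preimage_frontier K).symm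
  rw [nu_eq, nu_eq, this, ← preimage_inter, measure_preimage_add]

lemma Sm.tr {v : E2} (x : E2) (s : Sm φ K v ⟪v, x⟫) : Sm φ ((x + ·) ⁻¹' K) v 0 := by
  refine ⟨s.1, ?_⟩
  have := s.2
  rw [← nu_tr K _ x, ← nu_tr K univ x] at this
  simpa [inner_add_right] using this

theorem Bd.three (h : Bd K) (P : Ph φ) {v1 v2 v3 : E2} {t1 t2 t3 : ℝ} (s1 : Sm φ K v1 t1)
    (s2 : Sm φ K v2 t2) (s3 : Sm φ K v3 t3) :
    ∃ y ∈ K, t1 < ⟪v1, y⟫ ∧ t2 < ⟪v2, y⟫ ∧ t3 < ⟪v3, y⟫ := by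
  by_contra hh
  obtain ⟨x, hx, hm⟩ := h.cp.exists_isMaxOn (h.ne.mono interior_subset)
    (f := fun y => min (⟪v1, y⟫ - t1) (min (⟪v2, y⟫ - t2) (⟪v3, y⟫ - t3))) (by fun_prop)
  obtain ⟨m, em⟩ : ∃ m, m = min (⟪v1, x⟫ - t1) (min (⟪v2, x⟫ - t2) (⟪v3, x⟫ - t3)) := ⟨_, rfl⟩
  have m0 : m ≤ 0 := by
    by_contra k
    rw [em, not_le, lt_min_iff, lt_min_iff] at k
    exact hh ⟨x, hx, by linarith [k.1], by linarith [k.2.1], by linarith [k.2.2]⟩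
  have x1 : t1 + m ≤ ⟪v1, x⟫ := by linarith [em.trans_le (min_le_left _ _)]
  have x2 : t2 + m ≤ ⟪v2, x⟫ := by linarith [em.trans_le ((min_le_right _ _).trans (min_le_left _ _))]
  have x3 : t3 + m ≤ ⟪v3, x⟫ := by linarith [em.trans_le ((min_le_right _ _).trans (min_le_right _ _))]
  have cov : ∀ y ∈ K, t1 + m < ⟪v1, y⟫ → t2 + m < ⟪v2, y⟫ → t3 + m < ⟪v3, y⟫ → False :=
    fun y hy a b c => by
      have := isMaxOn_iff.1 hm y hy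
      rw [← em] at this
      exact this.not_gt (lt_min (by linarith) (lt_min (by linarith) (by linarith)))
  have φ0 : 0 ≤ 1 + φ := by linarith [P.lo]
  have sm : ∀ {v : E2} {t : ℝ}, Sm φ K v t → Sm φ K v (t + m) := fun {v t} s =>
    ⟨s.1, (mul_le_mul_of_nonneg_left (h.mono fun y _ (hy : ⟪v, y⟫ < t + m) =>
      show ⟪v, y⟫ < t by linarith) φ0).trans s.2⟩
  replace s1 := sm s1
  replace s2 := sm s2
  replace s3 := sm s3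
  generalize t1 + m = r1 at *
  generalize t2 + m = r2 at *
  generalize t3 + m = r3 at *
  obtain ⟨y1, m1, a2, a3⟩ := h.two P s2 s3
  obtain ⟨y2, m2, b1, b3⟩ := h.two P s1 s3
  obtain ⟨y3, m3, c1, c2⟩ := h.two P s1 s2
  have e1 : r1 = ⟪v1, x⟫ := x1.eq_or_lt.resolve_right fun k => by
    obtain ⟨w, a, b, c, d⟩ := h.nd hx m1 k x2 a2 x3 a3
    exact cov w a b c d
  have e2 : r2 = ⟪v2, x⟫ := x2.eq_or_lt.resolve_right fun k => by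
    obtain ⟨w, a, b, c, d⟩ := h.nd hx m2 k x1 b1 x3 b3
    exact cov w a c b d
  have e3 : r3 = ⟪v3, x⟫ := x3.eq_or_lt.resolve_right fun k => by
    obtain ⟨w, a, b, c, d⟩ := h.nd hx m3 k x1 c1 x2 c2
    exact cov w a c d b
  have a1 : ⟪v1, y1⟫ < r1 := not_le.1 fun k => by
    obtain ⟨w, a, b, c, d⟩ := h.nd m1 m2 a2 k b1 a3.le b3
    exact cov w a c b d
  have b2 : ⟪v2, y2⟫ < r2 := not_le.1 fun k => by
    obtain ⟨w, a, b, c, d⟩ := h.nd m2 m3 b3 k c2 b1.le c1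
    exact cov w a d c b
  have c3 : ⟪v3, y3⟫ < r3 := not_le.1 fun k => by
    obtain ⟨w, a, b, c, d⟩ := h.nd m3 m1 c1 k a3 c2.le a2
    exact cov w a b d c
  subst e1 e2 e3
  refine (h.tr x).org P (s1.tr x) (s2.tr x) (s3.tr x) (d1 := y1 - x) (d2 := y2 - x) (d3 := y3 - x)
    (by simpa using m1) (by simpa using m2) (by simpa using m3) ?_ ?_ ?_ ?_ ?_ ?_ ?_ ?_ ?_ <;>
    rw [inner_sub_right] <;> linarith

end Pool.Agent.H.MP_653fdd_gt
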