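import Pool.Agent.H.MP_653fdd_gt.F1

namespace Pool.Agent.H.MP_653fdd_gt

def Hi (v : ℝ) (h : ℕ) : Prop := h = 0 ∨ v ≤ h

lemma mx_le {a b : ℕ} {x : ℝ} (h1 : (a : ℝ) ≤ x) (h2 : (b : ℝ) ≤ x) : (mx a b : ℝ) ≤ x := by
  simp only [mx, force_eq]; cases Nat.ble a b <;> assumption

lemma mn_le (a b : ℕ) : mn a b ≤ a ∧ mn a b ≤ b := by
  simp only [mn, force_eq]
  cases h : Nat.ble a b
  · have : ¬ a ≤ b := fun hh => by rw [Nat.ble_eq_true_of_le hh] at h; exact absurd h (by simp)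
    simp only [cond_false]; omega
  · have := Nat.le_of_ble_eq_true h
    simp only [cond_true]; omega

lemma sub_hi (u v : ℕ) (x : ℝ) (h0 : 0 ≤ x) (h : (u : ℝ) - v ≤ x) : ((Nat.sub u v : ℕ) : ℝ) ≤ x := by
  rw [Nat.sub_eq]
  rcases le_total v u with h1 | h1
  · rwa [Nat.cast_sub h1]
  · rw [Nat.sub_eq_zero_of_le h1]; simpa using h0

lemma sub_lo (u v : ℕ) : (u : ℝ) - v ≤ (Nat.sub u v : ℕ) := by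
  rw [Nat.sub_eq]
  rcases le_total v u with h | h
  · rw [Nat.cast_sub h]
  · have : (u : ℝ) ≤ v := by exact_mod_cast h
    have : (0 : ℝ) ≤ (u - v : ℕ) := by positivity
    linarith

lemma cz {v x : ℝ} {h a : ℕ} (hh : Hi v h) (h0 : 0 ≤ x) (h1 : v ≤ h → (a : ℝ) ≤ x) :
    ((cond (Nat.beq h 0) 0 a : ℕ) : ℝ) ≤ x := by
  cases e : Nat.beq h 0
  · rcases hh with hh | hh
    · subst hh; exact absurd e (by simp)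
    · exact h1 hh
  · simpa using h0

lemma sb_le {a h : ℕ} {x v : ℝ} (h1 : (a : ℝ) ≤ x + v) (hh : Hi v h) (h0 : 0 ≤ x) :
    (sb a h : ℝ) ≤ x := cz hh h0 fun h2 => sub_hi _ _ _ h0 (by linarith)

lemma dv_le (n h o : ℕ) : (dv n h o : ℝ) ≤ 1000000 * ((n : ℝ) / (h + o)) := by
  have : ((1000000 * n / (h + o) : ℕ) : ℝ) ≤ _ := Nat.cast_div_le
  push_cast at this
  rw [← mul_div_assoc]; exact this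

lemma dvx_le {x q : ℕ} {X o : ℝ} (h1 : (x : ℝ) ≤ X) (h2 : 0 < o) (h3 : o ≤ q) :
    (dv x x q : ℝ) ≤ 1000000 * (X / (X + o)) := by
  refine (dv_le _ _ _).trans (mul_le_mul_of_nonneg_left ?_ (by norm_num))
  have : (0 : ℝ) ≤ x := by positivity
  rw [div_le_div_iff₀ (by linarith) (by linarith)]
  nlinarith [mul_le_mul h1 h3 h2.le (this.trans h1)]

lemma qt_le {n h q : ℕ} {N D o : ℝ} (h1 : (n : ℝ) ≤ N) (hh : Hi D h) (h0 : 0 ≤ D) (h2 : 0 < o)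
    (h3 : o ≤ q) : (qt n h q : ℝ) ≤ 1000000 * (N / (D + o)) := by
  have : (0 : ℝ) ≤ n := by positivity
  have hN : 0 ≤ N := this.trans h1
  refine cz hh (by positivity) fun h4 =>
    (dv_le _ _ _).trans (mul_le_mul_of_nonneg_left ?_ (by norm_num))
  exact div_le_div₀ hN h1 (by linarith) (by linarith)

lemma rt_le {n dl dh q zh : ℕ} {N D Z o : ℝ} (h1 : (n : ℝ) ≤ N) (h4 : (dl : ℝ) ≤ D) (hh : Hi D dh)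
    (hz : Hi Z zh) (h2 : 0 < o) (h3 : o ≤ q) (h5 : 1055 * D + 44700000 ≤ 10000 * (N + Z)) :
    (rt n dl dh q zh : ℝ) ≤ 1000000 * (N / (D + o)) := by
  have n0 : (0 : ℝ) ≤ n := by positivity
  have d0 : (0 : ℝ) ≤ dl := by positivity
  have hN : 0 ≤ N := n0.trans h1
  have hD : 0 ≤ D := d0.trans h4
  refine mx_le (qt_le h1 hh hD h2 h3) (cz hz (by positivity) fun h6 => ?_)
  obtain ⟨a1, a2⟩ := mn_le 105500 (Nat.div (Nat.mul 100 (Nat.sub (Nat.add (Nat.mul 1055 dl) 44700000)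
    (Nat.mul 10000 zh))) (Nat.add dl q))
  generalize mn _ _ = c at *
  have a3 : c * (dl + q) ≤ 100 * (Nat.sub (Nat.add (Nat.mul 1055 dl) 44700000) (Nat.mul 10000 zh)) :=
    (Nat.mul_le_mul_right _ a2).trans (Nat.div_mul_le_self _ _)
  have a4 := sub_hi (Nat.add (Nat.mul 1055 dl) 44700000) (Nat.mul 10000 zh)
    (10000 * N - 1055 * (D - dl))
  have c0 : (0 : ℝ) ≤ c := by positivity
  have b1 : (c : ℝ) ≤ 105500 := by exact_mod_cast a1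
  rw [← mul_div_assoc, le_div_iff₀ (by linarith)]
  rcases Nat.eq_zero_or_pos c with rfl | hc
  · simp [hN]
  have a5 : (0 : ℝ) < q := by linarith
  have a6 : 0 < q := by exact_mod_cast a5
  have a7 : Nat.mul 10000 zh ≤ Nat.add (Nat.mul 1055 dl) 44700000 := by
    by_contra hh
    rw [Nat.sub_eq, Nat.sub_eq_zero_of_le (not_le.1 hh).le] at a3
    have : 0 < c * (dl + q) := by positivity
    omega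
  rw [Nat.sub_eq] at a3
  have a8 : ((c * (dl + q) : ℕ) : ℝ) ≤ _ := Nat.cast_le.2 a3
  rw [Nat.cast_mul 100, Nat.cast_sub a7] at a8
  simp only [Nat.add_eq, Nat.mul_eq] at a8
  push_cast at a8
  nlinarith [mul_le_mul_of_nonneg_left h3 c0, mul_le_mul_of_nonneg_right b1 (sub_nonneg.2 h4)]

lemma ov_false {h x : ℕ} {X : ℝ} (h1 : (x : ℝ) ≤ X) (hh : Hi X h) : ov h x = false := by
  unfold ov
  rcases hh with rfl | hh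
  · rfl
  · have : x ≤ h := by exact_mod_cast h1.trans hh
    have e : Nat.blt h x = false := by
      rw [Bool.eq_false_iff]; intro e; have := Nat.blt_eq.mp e; omega
    rw [e]; simp

lemma rr_le {a b p : ℕ} {A B o W : ℝ} (h1 : (a : ℝ) ≤ A) (h2 : (b : ℝ) ≤ B) (h3 : (p : ℝ) ≤ o)
    (h4 : 1909 * (A + B + o) + 80900000 ≤ 18091 * W) : (rr a b p : ℝ) ≤ W := by
  have : (((1909 * (a + b + p) + 80900000) / 18091 : ℕ) : ℝ) ≤ _ := Nat.cast_div_le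
  push_cast at this
  refine le_trans this ?_
  rw [div_le_iff₀ (by norm_num)]; linarith

lemma tg_le {l p h r h' : ℕ} {X o V V' : ℝ} (h1 : (l : ℝ) ≤ X) (h2 : (p : ℝ) ≤ o) (hh : Hi V h)
    (hh' : Hi V' h') (h3 : 16180 + o ≤ X + V) (h4 : (r : ℝ) ≤ X + V') : (tg l p h r h' : ℝ) ≤ X := by
  have h0 : 0 ≤ X := le_trans (by positivity) h1
  refine mx_le h1 (mx_le (sb_le ?_ hh h0) (sb_le h4 hh' h0))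
  simp only [Nat.add_eq]; push_cast; linarith

def Dm (f : Bool) (X Y o : ℝ) : Prop := f = true → Y ≤ X ∧ o ≤ 2 * X

lemma dm_le {f : Bool} {x y p : ℕ} {X Y o : ℝ} (h : Dm f X Y o) (h1 : (x : ℝ) ≤ X) (h2 : (y : ℝ) ≤ Y)
    (h3 : (p : ℝ) ≤ o) : (dm f x y p : ℝ) ≤ X := by
  cases f
  · exact h1
  · obtain ⟨a, b⟩ := h rfl
    have : ((p / 2 : ℕ) : ℝ) ≤ _ := Nat.cast_div_le
    push_cast at this
    exact mx_le h1 (mx_le (h2.trans a) (le_trans this (by linarith)))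

lemma dq_le {f : Bool} {v : ℕ} {X Y o : ℝ} (h : Dm f X Y o) (h0 : 0 ≤ Y) (h2 : 0 < o)
    (h1 : (v : ℝ) ≤ 1000000 * (X / (Y + o))) : (dq f v : ℝ) ≤ 1000000 * (X / (Y + o)) := by
  cases f
  · exact h1
  · obtain ⟨a, b⟩ := h rfl
    refine mx_le h1 ?_
    rw [← mul_div_assoc, le_div_iff₀ (by linarith)]
    push_cast; linarith

lemma m2_le {a b : ℕ} {x y : ℝ} (h1 : (a : ℝ) ≤ 1000000 * x) (h2 : (b : ℝ) ≤ 1000000 * y) :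
    ((Nat.mul a b : ℕ) : ℝ) ≤ 1000000 * 1000000 * (x * y) := by
  have := mul_le_mul h1 h2 (by positivity) (le_trans (by positivity) h1)
  rw [Nat.mul_eq, Nat.cast_mul]; linarith

lemma m3_le {a b c : ℕ} {x y z : ℝ} (h1 : (a : ℝ) ≤ 1000000 * x) (h2 : (b : ℝ) ≤ 1000000 * y)
    (h3 : (c : ℝ) ≤ 1000000 * z) : (m3 a b c : ℝ) ≤ 1000000 * 1000000 * 1000000 * (x * y * z) := by
  have h4 := m2_le h1 h2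
  have := mul_le_mul h4 h3 (by positivity) (le_trans (by positivity) h4)
  rw [m3, Nat.mul_eq (x := Nat.mul a b), Nat.cast_mul]; linarith

noncomputable def TT (X0 X1 X2 Y0 Y1 Y2 o0 o1 o2 : ℝ) : ℝ :=
  X0 / (X0 + o0) * (Y0 / (Y0 + o0)) + X1 / (X1 + o1) * (Y1 / (Y1 + o1)) +
    X2 / (X2 + o2) * (Y2 / (Y2 + o2)) + Y1 / (X2 + o2) * (Y2 / (X0 + o0)) * (Y0 / (X1 + o1)) +
    X0 / (Y2 + o2) * (X1 / (Y0 + o0)) * (X2 / (Y1 + o1))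

structure Hy (X0 X1 X2 Y0 Y1 Y2 o0 o1 o2 : ℝ) : Prop where
  x0 : 0 ≤ X0
  x1 : 0 ≤ X1
  x2 : 0 ≤ X2
  y0 : 0 ≤ Y0
  y1 : 0 ≤ Y1
  y2 : 0 ≤ Y2
  p0 : 0 < o0
  p1 : 0 < o1
  p2 : 0 < o2
  s : o0 + o1 + o2 = 10000
  i0 : 16180 + o1 ≤ X0 + Y2
  i1 : 16180 + o2 ≤ X1 + Y0
  i2 : 16180 + o0 ≤ X2 + Y1
  a0 : 1909 * (X2 + Y2 + o2) + 80900000 ≤ 18091 * (X0 + Y1)
  a1 : 1909 * (X0 + Y0 + o0) + 80900000 ≤ 18091 * (X1 + Y2)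
  a2 : 1909 * (X1 + Y1 + o1) + 80900000 ≤ 18091 * (X2 + Y0)

variable {X0 X1 X2 Y0 Y1 Y2 o0 o1 o2 : ℝ} {f0 f1 f2 : Bool}

lemma fin_le (H : Hy X0 X1 X2 Y0 Y1 Y2 o0 o1 o2) (d0 : Dm f0 X0 Y0 o0) (e0 : Dm (!f0) Y0 X0 o0)
    (d1 : Dm f1 X1 Y1 o1) (e1 : Dm (!f1) Y1 X1 o1) (d2 : Dm f2 X2 Y2 o2) (e2 : Dm (!f2) Y2 X2 o2)
    {x0 x1 x2 y0 y1 y2 h0 h1 h2 h3 h4 h5 q0 q1 q2 : ℕ} (a0 : (x0 : ℝ) ≤ X0) (a1 : (x1 : ℝ) ≤ X1)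
    (a2 : (x2 : ℝ) ≤ X2) (a3 : (y0 : ℝ) ≤ Y0) (a4 : (y1 : ℝ) ≤ Y1) (a5 : (y2 : ℝ) ≤ Y2)
    (b0 : Hi X0 h0) (b1 : Hi X1 h1) (b2 : Hi X2 h2) (b3 : Hi Y0 h3) (b4 : Hi Y1 h4) (b5 : Hi Y2 h5)
    (c0 : o0 ≤ q0) (c1 : o1 ≤ q1) (c2 : o2 ≤ q2) :
    (fin f0 f1 f2 x0 x1 x2 y0 y1 y2 h0 h1 h2 h3 h4 h5 q0 q1 q2 : ℝ) ≤
      1000000 * 1000000 * 1000000 * TT X0 X1 X2 Y0 Y1 Y2 o0 o1 o2 := by
  obtain ⟨x0', x1', x2', y0', y1', y2', p0, p1, p2, s, i0, i1, i2, g0, g1, g2⟩ := H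
  have t0 := m2_le (dvx_le a0 p0 c0) (dvx_le a3 p0 c0)
  have t1 := m2_le (dvx_le a1 p1 c1) (dvx_le a4 p1 c1)
  have t2 := m2_le (dvx_le a2 p2 c2) (dvx_le a5 p2 c2)
  have t3 := m3_le (rt_le a4 a2 b2 b0 p2 c2 (by linarith)) (rt_le a5 a0 b0 b1 p0 c0 (by linarith))
    (rt_le a3 a1 b1 b2 p1 c1 (by linarith))
  have t4 := m3_le (rt_le a0 a5 b5 b4 p2 c2 (by linarith)) (rt_le a1 a3 b3 b5 p0 c0 (by linarith))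
    (rt_le a2 a4 b4 b3 p1 c1 (by linarith))
  have t5 := m3_le (dq_le e0 x0' p0 (qt_le a3 b0 x0' p0 c0)) (dq_le e1 x1' p1 (qt_le a4 b1 x1' p1 c1))
    (dq_le e2 x2' p2 (qt_le a5 b2 x2' p2 c2))
  have t6 := m3_le (dq_le d0 y0' p0 (qt_le a0 b3 y0' p0 c0)) (dq_le d1 y1' p1 (qt_le a1 b4 y1' p1 c1))
    (dq_le d2 y2' p2 (qt_le a2 b5 y2' p2 c2))
  rw [show Y0 / (X0 + o0) * (Y1 / (X1 + o1)) * (Y2 / (X2 + o2)) =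
    Y1 / (X2 + o2) * (Y2 / (X0 + o0)) * (Y0 / (X1 + o1)) by ring] at t5
  rw [show X0 / (Y0 + o0) * (X1 / (Y1 + o1)) * (X2 / (Y2 + o2)) =
    X0 / (Y2 + o2) * (X1 / (Y0 + o0)) * (X2 / (Y1 + o1)) by ring] at t6
  have t7 := mx_le t3 t5
  have t8 := mx_le t4 t6
  unfold fin TT
  generalize mx _ _ = u at t7 ⊢
  generalize mx _ _ = v at t8 ⊢
  generalize Nat.mul (dv x0 x0 q0) _ = w0 at t0 ⊢
  generalize Nat.mul (dv x1 x1 q1) _ = w1 at t1 ⊢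
  generalize Nat.mul (dv x2 x2 q2) _ = w2 at t2 ⊢
  simp only [Nat.add_eq, Nat.mul_eq]
  push_cast
  linarith

lemma prune_sound (H : Hy X0 X1 X2 Y0 Y1 Y2 o0 o1 o2) (d0 : Dm f0 X0 Y0 o0) (e0 : Dm (!f0) Y0 X0 o0)
    (d1 : Dm f1 X1 Y1 o1) (e1 : Dm (!f1) Y1 X1 o1) (d2 : Dm f2 X2 Y2 o2) (e2 : Dm (!f2) Y2 X2 o2)
    {l0 l1 l2 l3 l4 l5 h0 h1 h2 h3 h4 h5 p0 p1 q0 q1 : ℕ} (a0 : (l0 : ℝ) ≤ X0) (a1 : (l1 : ℝ) ≤ X1)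
    (a2 : (l2 : ℝ) ≤ X2) (a3 : (l3 : ℝ) ≤ Y0) (a4 : (l4 : ℝ) ≤ Y1) (a5 : (l5 : ℝ) ≤ Y2)
    (b0 : Hi X0 h0) (b1 : Hi X1 h1) (b2 : Hi X2 h2) (b3 : Hi Y0 h3) (b4 : Hi Y1 h4) (b5 : Hi Y2 h5)
    (c0 : (p0 : ℝ) ≤ o0) (c1 : (p1 : ℝ) ≤ o1) (c2 : o0 ≤ q0) (c3 : o1 ≤ q1)
    (h : prune f0 f1 f2 l0 l1 l2 l3 l4 l5 h0 h1 h2 h3 h4 h5 p0 p1 q0 q1 = true) :
    1 < TT X0 X1 X2 Y0 Y1 Y2 o0 o1 o2 := by
  have s := H.s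
  have u2 : o2 ≤ (Nat.sub 10000 (Nat.add p0 p1) : ℕ) := by
    refine le_trans ?_ (sub_lo _ _); simp only [Nat.add_eq]; push_cast; linarith
  have w2 : ((Nat.sub 10000 (Nat.add q0 q1) : ℕ) : ℝ) ≤ o2 :=
    sub_hi _ _ _ H.p2.le (by simp only [Nat.add_eq]; push_cast; linarith)
  simp only [prune, force_eq] at h
  generalize Nat.sub 10000 (Nat.add p0 p1) = q2 at *
  generalize Nat.sub 10000 (Nat.add q0 q1) = p2 at *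
  have z : Nat.beq q2 0 = false := by
    rw [Bool.eq_false_iff]; intro e
    rw [Nat.eq_of_beq_eq_true e] at u2
    have := H.p2
    simp only [Nat.cast_zero] at u2; linarith
  have r0 := rr_le a0 a3 c0 H.a1
  have r1 := rr_le a1 a4 c1 H.a2
  have r2 := rr_le a2 a5 w2 H.a0
  have g0 := tg_le a0 c1 b5 b4 H.i0 r2
  have k0 := tg_le a3 w2 b1 b2 (H.i1.trans_eq (add_comm _ _)) (r1.trans_eq (add_comm _ _))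
  have g1 := tg_le a1 w2 b3 b5 H.i1 r0
  have k1 := tg_le a4 c0 b2 b0 (H.i2.trans_eq (add_comm _ _)) (r2.trans_eq (add_comm _ _))
  have g2 := tg_le a2 c0 b4 b3 H.i2 r1
  have k2 := tg_le a5 c1 b0 b1 (H.i0.trans_eq (add_comm _ _)) (r0.trans_eq (add_comm _ _))
  have m0 := dm_le d0 g0 k0 c0
  have n0 := dm_le e0 k0 g0 c0
  have m1 := dm_le d1 g1 k1 c1
  have n1 := dm_le e1 k1 g1 c1
  have m2 := dm_le d2 g2 k2 w2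
  have n2 := dm_le e2 k2 g2 w2
  rw [z, ov_false m0 b0, ov_false m1 b1, ov_false m2 b2, ov_false n0 b3, ov_false n1 b4,
    ov_false n2 b5] at h
  simp only [Bool.false_or] at h
  have t := fin_le H d0 e0 d1 e1 d2 e2 m0 m1 m2 n0 n1 n2 b0 b1 b2 b3 b4 b5 c2 c3 u2
  have t' : ((1000000000000000000 : ℕ) : ℝ) < _ := Nat.cast_lt.2 (Nat.blt_eq.mp h)
  have := t'.trans_le t
  push_cast at this
  linarith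

lemma chk_sound (H : Hy X0 X1 X2 Y0 Y1 Y2 o0 o1 o2) (d0 : Dm f0 X0 Y0 o0) (e0 : Dm (!f0) Y0 X0 o0)
    (d1 : Dm f1 X1 Y1 o1) (e1 : Dm (!f1) Y1 X1 o1) (d2 : Dm f2 X2 Y2 o2) (e2 : Dm (!f2) Y2 X2 o2)
    (t : Tr) : ∀ (l0 l1 l2 l3 l4 l5 h0 h1 h2 h3 h4 h5 p0 p1 q0 q1 : ℕ), (l0 : ℝ) ≤ X0 →
      (l1 : ℝ) ≤ X1 → (l2 : ℝ) ≤ X2 → (l3 : ℝ) ≤ Y0 → (l4 : ℝ) ≤ Y1 → (l5 : ℝ) ≤ Y2 →
      Hi X0 h0 → Hi X1 h1 → Hi X2 h2 → Hi Y0 h3 → Hi Y1 h4 → Hi Y2 h5 →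
      (p0 : ℝ) ≤ o0 → (p1 : ℝ) ≤ o1 → o0 ≤ q0 → o1 ≤ q1 →
      chk f0 f1 f2 t l0 l1 l2 l3 l4 l5 h0 h1 h2 h3 h4 h5 p0 p1 q0 q1 = true →
      1 < TT X0 X1 X2 Y0 Y1 Y2 o0 o1 o2 := by
  induction t with
  | z =>
    intro _ _ _ _ _ _ _ _ _ _ _ _ _ _ _ _ a0 a1 a2 a3 a4 a5 b0 b1 b2 b3 b4 b5 c0 c1 c2 c3 h
    exact prune_sound H d0 e0 d1 e1 d2 e2 a0 a1 a2 a3 a4 a5 b0 b1 b2 b3 b4 b5 c0 c1 c2 c3 h
  | a m L R i1 i2 =>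
    intro l0 l1 l2 l3 l4 l5 h0 h1 h2 h3 h4 h5 p0 p1 q0 q1 a0 a1 a2 a3 a4 a5 b0 b1 b2 b3 b4 b5 c0 c1 c2 c3 h
    have h' : (force m fun m => chk f0 f1 f2 L l0 l1 l2 l3 l4 l5 m h1 h2 h3 h4 h5 p0 p1 q0 q1 &&
      chk f0 f1 f2 R m l1 l2 l3 l4 l5 h0 h1 h2 h3 h4 h5 p0 p1 q0 q1) = true := h
    rw [force_eq, Bool.and_eq_true] at h'
    exact (le_total X0 m).elim (fun u => i1 _ _ _ _ _ _ _ _ _ _ _ _ _ _ _ _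
      a0 a1 a2 a3 a4 a5 (Or.inr u) b1 b2 b3 b4 b5 c0 c1 c2 c3 h'.1) fun u => i2 _ _ _ _ _ _ _ _ _ _ _ _ _ _ _ _
      u a1 a2 a3 a4 a5 b0 b1 b2 b3 b4 b5 c0 c1 c2 c3 h'.2
  | b m L R i1 i2 =>
    intro l0 l1 l2 l3 l4 l5 h0 h1 h2 h3 h4 h5 p0 p1 q0 q1 a0 a1 a2 a3 a4 a5 b0 b1 b2 b3 b4 b5 c0 c1 c2 c3 h
    have h' : (force m fun m => chk f0 f1 f2 L l0 l1 l2 l3 l4 l5 h0 m h2 h3 h4 h5 p0 p1 q0 q1 &&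
      chk f0 f1 f2 R l0 m l2 l3 l4 l5 h0 h1 h2 h3 h4 h5 p0 p1 q0 q1) = true := h
    rw [force_eq, Bool.and_eq_true] at h'
    exact (le_total X1 m).elim (fun u => i1 _ _ _ _ _ _ _ _ _ _ _ _ _ _ _ _
      a0 a1 a2 a3 a4 a5 b0 (Or.inr u) b2 b3 b4 b5 c0 c1 c2 c3 h'.1) fun u => i2 _ _ _ _ _ _ _ _ _ _ _ _ _ _ _ _
      a0 u a2 a3 a4 a5 b0 b1 b2 b3 b4 b5 c0 c1 c2 c3 h'.2
  | c m L R i1 i2 =>
    intro l0 l1 l2 l3 l4 l5 h0 h1 h2 h3 h4 h5 p0 p1 q0 q1 a0 a1 a2 a3 a4 a5 b0 b1 b2 b3 b4 b5 c0 c1 c2 c3 h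
    have h' : (force m fun m => chk f0 f1 f2 L l0 l1 l2 l3 l4 l5 h0 h1 m h3 h4 h5 p0 p1 q0 q1 &&
      chk f0 f1 f2 R l0 l1 m l3 l4 l5 h0 h1 h2 h3 h4 h5 p0 p1 q0 q1) = true := h
    rw [force_eq, Bool.and_eq_true] at h'
    exact (le_total X2 m).elim (fun u => i1 _ _ _ _ _ _ _ _ _ _ _ _ _ _ _ _
      a0 a1 a2 a3 a4 a5 b0 b1 (Or.inr u) b3 b4 b5 c0 c1 c2 c3 h'.1) fun u => i2 _ _ _ _ _ _ _ _ _ _ _ _ _ _ _ _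
      a0 a1 u a3 a4 a5 b0 b1 b2 b3 b4 b5 c0 c1 c2 c3 h'.2
  | d m L R i1 i2 =>
    intro l0 l1 l2 l3 l4 l5 h0 h1 h2 h3 h4 h5 p0 p1 q0 q1 a0 a1 a2 a3 a4 a5 b0 b1 b2 b3 b4 b5 c0 c1 c2 c3 h
    have h' : (force m fun m => chk f0 f1 f2 L l0 l1 l2 l3 l4 l5 h0 h1 h2 m h4 h5 p0 p1 q0 q1 &&
      chk f0 f1 f2 R l0 l1 l2 m l4 l5 h0 h1 h2 h3 h4 h5 p0 p1 q0 q1) = true := h
    rw [force_eq, Bool.and_eq_true] at h'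
    exact (le_total Y0 m).elim (fun u => i1 _ _ _ _ _ _ _ _ _ _ _ _ _ _ _ _
      a0 a1 a2 a3 a4 a5 b0 b1 b2 (Or.inr u) b4 b5 c0 c1 c2 c3 h'.1) fun u => i2 _ _ _ _ _ _ _ _ _ _ _ _ _ _ _ _
      a0 a1 a2 u a4 a5 b0 b1 b2 b3 b4 b5 c0 c1 c2 c3 h'.2
  | e m L R i1 i2 =>
    intro l0 l1 l2 l3 l4 l5 h0 h1 h2 h3 h4 h5 p0 p1 q0 q1 a0 a1 a2 a3 a4 a5 b0 b1 b2 b3 b4 b5 c0 c1 c2 c3 h
    have h' : (force m fun m => chk f0 f1 f2 L l0 l1 l2 l3 l4 l5 h0 h1 h2 h3 m h5 p0 p1 q0 q1 &&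
      chk f0 f1 f2 R l0 l1 l2 l3 m l5 h0 h1 h2 h3 h4 h5 p0 p1 q0 q1) = true := h
    rw [force_eq, Bool.and_eq_true] at h'
    exact (le_total Y1 m).elim (fun u => i1 _ _ _ _ _ _ _ _ _ _ _ _ _ _ _ _
      a0 a1 a2 a3 a4 a5 b0 b1 b2 b3 (Or.inr u) b5 c0 c1 c2 c3 h'.1) fun u => i2 _ _ _ _ _ _ _ _ _ _ _ _ _ _ _ _
      a0 a1 a2 a3 u a5 b0 b1 b2 b3 b4 b5 c0 c1 c2 c3 h'.2
  | f m L R i1 i2 =>
    intro l0 l1 l2 l3 l4 l5 h0 h1 h2 h3 h4 h5 p0 p1 q0 q1 a0 a1 a2 a3 a4 a5 b0 b1 b2 b3 b4 b5 c0 c1 c2 c3 h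
    have h' : (force m fun m => chk f0 f1 f2 L l0 l1 l2 l3 l4 l5 h0 h1 h2 h3 h4 m p0 p1 q0 q1 &&
      chk f0 f1 f2 R l0 l1 l2 l3 l4 m h0 h1 h2 h3 h4 h5 p0 p1 q0 q1) = true := h
    rw [force_eq, Bool.and_eq_true] at h'
    exact (le_total Y2 m).elim (fun u => i1 _ _ _ _ _ _ _ _ _ _ _ _ _ _ _ _
      a0 a1 a2 a3 a4 a5 b0 b1 b2 b3 b4 (Or.inr u) c0 c1 c2 c3 h'.1) fun u => i2 _ _ _ _ _ _ _ _ _ _ _ _ _ _ _ _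
      a0 a1 a2 a3 a4 u b0 b1 b2 b3 b4 b5 c0 c1 c2 c3 h'.2
  | g m L R i1 i2 =>
    intro l0 l1 l2 l3 l4 l5 h0 h1 h2 h3 h4 h5 p0 p1 q0 q1 a0 a1 a2 a3 a4 a5 b0 b1 b2 b3 b4 b5 c0 c1 c2 c3 h
    have h' : (force m fun m => chk f0 f1 f2 L l0 l1 l2 l3 l4 l5 h0 h1 h2 h3 h4 h5 p0 p1 m q1 &&
      chk f0 f1 f2 R l0 l1 l2 l3 l4 l5 h0 h1 h2 h3 h4 h5 m p1 q0 q1) = true := h
    rw [force_eq, Bool.and_eq_true] at h'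
    exact (le_total o0 m).elim (fun u => i1 _ _ _ _ _ _ _ _ _ _ _ _ _ _ _ _
      a0 a1 a2 a3 a4 a5 b0 b1 b2 b3 b4 b5 c0 c1 u c3 h'.1) fun u => i2 _ _ _ _ _ _ _ _ _ _ _ _ _ _ _ _
      a0 a1 a2 a3 a4 a5 b0 b1 b2 b3 b4 b5 u c1 c2 c3 h'.2
  | h m L R i1 i2 =>
    intro l0 l1 l2 l3 l4 l5 h0 h1 h2 h3 h4 h5 p0 p1 q0 q1 a0 a1 a2 a3 a4 a5 b0 b1 b2 b3 b4 b5 c0 c1 c2 c3 h
    have h' : (force m fun m => chk f0 f1 f2 L l0 l1 l2 l3 l4 l5 h0 h1 h2 h3 h4 h5 p0 p1 q0 m &&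
      chk f0 f1 f2 R l0 l1 l2 l3 l4 l5 h0 h1 h2 h3 h4 h5 p0 m q0 q1) = true := h
    rw [force_eq, Bool.and_eq_true] at h'
    exact (le_total o1 m).elim (fun u => i1 _ _ _ _ _ _ _ _ _ _ _ _ _ _ _ _
      a0 a1 a2 a3 a4 a5 b0 b1 b2 b3 b4 b5 c0 c1 c2 u h'.1) fun u => i2 _ _ _ _ _ _ _ _ _ _ _ _ _ _ _ _
      a0 a1 a2 a3 a4 a5 b0 b1 b2 b3 b4 b5 c0 u c2 c3 h'.2

end Pool.Agent.H.MP_653fdd_gt
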