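import Mathlib

namespace Pool.Agent.H.MP_653fdd_gt

def force {α : Type} (n : ℕ) (k : ℕ → α) : α := Nat.casesOn n (k 0) (fun m => k m.succ)

@[simp] lemma force_eq {α : Type} (n : ℕ) (k : ℕ → α) : force n k = k n := by cases n <;> rfl

def mx (a b : ℕ) : ℕ := force a fun a => force b fun b => cond (Nat.ble a b) b a
def mn (a b : ℕ) : ℕ := force a fun a => force b fun b => cond (Nat.ble a b) a b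
def sb (a h : ℕ) : ℕ := cond (Nat.beq h 0) 0 (Nat.sub a h)
def dv (n h o : ℕ) : ℕ := Nat.div (Nat.mul 1000000 n) (Nat.add h o)
def qt (n h o : ℕ) : ℕ := cond (Nat.beq h 0) 0 (dv n h o)
def rt (n dl dh oh zh : ℕ) : ℕ := mx (qt n dh oh) (cond (Nat.beq zh 0) 0 (mn 105500
  (Nat.div (Nat.mul 100 (Nat.sub (Nat.add (Nat.mul 1055 dl) 44700000) (Nat.mul 10000 zh))) (Nat.add dl oh))))
def ov (h x : ℕ) : Bool := Nat.blt 0 h && Nat.blt h x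
def rr (a b p : ℕ) : ℕ := Nat.div (Nat.add (Nat.mul 1909 (Nat.add (Nat.add a b) p)) 80900000) 18091
def tg (l p h r h' : ℕ) : ℕ := mx l (mx (sb (Nat.add 16180 p) h) (sb r h'))
def dm (f : Bool) (x y p : ℕ) : ℕ := cond f (mx x (mx y (Nat.div p 2))) x
def dq (f : Bool) (v : ℕ) : ℕ := cond f (mx v 333333) v
def m3 (a b c : ℕ) : ℕ := Nat.mul (Nat.mul a b) c

def fin (f0 f1 f2 : Bool) (x0 x1 x2 y0 y1 y2 h0 h1 h2 h3 h4 h5 q0 q1 q2 : ℕ) : ℕ :=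
  Nat.add (Nat.add (Nat.mul 1000000 (Nat.add (Nat.add (Nat.mul (dv x0 x0 q0) (dv y0 y0 q0))
      (Nat.mul (dv x1 x1 q1) (dv y1 y1 q1))) (Nat.mul (dv x2 x2 q2) (dv y2 y2 q2))))
    (mx (m3 (rt y1 x2 h2 q2 h0) (rt y2 x0 h0 q0 h1) (rt y0 x1 h1 q1 h2))
      (m3 (dq (!f0) (qt y0 h0 q0)) (dq (!f1) (qt y1 h1 q1)) (dq (!f2) (qt y2 h2 q2)))))
    (mx (m3 (rt x0 y2 h5 q2 h4) (rt x1 y0 h3 q0 h5) (rt x2 y1 h4 q1 h3))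
      (m3 (dq f0 (qt x0 h3 q0)) (dq f1 (qt x1 h4 q1)) (dq f2 (qt x2 h5 q2))))

def prune (f0 f1 f2 : Bool) (l0 l1 l2 l3 l4 l5 h0 h1 h2 h3 h4 h5 p0 p1 q0 q1 : ℕ) : Bool :=
  force (Nat.sub 10000 (Nat.add p0 p1)) fun q2 => force (Nat.sub 10000 (Nat.add q0 q1)) fun p2 =>
  Nat.beq q2 0 ||
  force (rr l0 l3 p0) fun r0 => force (rr l1 l4 p1) fun r1 => force (rr l2 l5 p2) fun r2 =>
  force (tg l0 p1 h5 r2 h4) fun a0 => force (tg l3 p2 h1 r1 h2) fun b0 =>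
  force (tg l1 p2 h3 r0 h5) fun a1 => force (tg l4 p0 h2 r2 h0) fun b1 =>
  force (tg l2 p0 h4 r1 h3) fun a2 => force (tg l5 p1 h0 r0 h1) fun b2 =>
  force (dm f0 a0 b0 p0) fun x0 => force (dm (!f0) b0 a0 p0) fun y0 =>
  force (dm f1 a1 b1 p1) fun x1 => force (dm (!f1) b1 a1 p1) fun y1 =>
  force (dm f2 a2 b2 p2) fun x2 => force (dm (!f2) b2 a2 p2) fun y2 =>
  ov h0 x0 || (ov h1 x1 || (ov h2 x2 || (ov h3 y0 || (ov h4 y1 || (ov h5 y2 ||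
  Nat.blt 1000000000000000000 (fin f0 f1 f2 x0 x1 x2 y0 y1 y2 h0 h1 h2 h3 h4 h5 q0 q1 q2))))))

inductive Tr
  | z : Tr
  | a (m : ℕ) (L R : Tr) : Tr
  | b (m : ℕ) (L R : Tr) : Tr
  | c (m : ℕ) (L R : Tr) : Tr
  | d (m : ℕ) (L R : Tr) : Tr
  | e (m : ℕ) (L R : Tr) : Tr
  | f (m : ℕ) (L R : Tr) : Tr
  | g (m : ℕ) (L R : Tr) : Tr
  | h (m : ℕ) (L R : Tr) : Tr

abbrev Fn := ℕ → ℕ → ℕ → ℕ → ℕ → ℕ → ℕ → ℕ → ℕ → ℕ → ℕ → ℕ → ℕ → ℕ → ℕ → ℕ → Bool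

noncomputable def chk (f0 f1 f2 : Bool) (t : Tr) : Fn :=
  Tr.rec (motive := fun _ => Fn) (prune f0 f1 f2)
    (fun m _ _ L R l0 l1 l2 l3 l4 l5 h0 h1 h2 h3 h4 h5 p0 p1 q0 q1 => force m fun m =>
      L l0 l1 l2 l3 l4 l5 m h1 h2 h3 h4 h5 p0 p1 q0 q1 && R m l1 l2 l3 l4 l5 h0 h1 h2 h3 h4 h5 p0 p1 q0 q1)
    (fun m _ _ L R l0 l1 l2 l3 l4 l5 h0 h1 h2 h3 h4 h5 p0 p1 q0 q1 => force m fun m =>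
      L l0 l1 l2 l3 l4 l5 h0 m h2 h3 h4 h5 p0 p1 q0 q1 && R l0 m l2 l3 l4 l5 h0 h1 h2 h3 h4 h5 p0 p1 q0 q1)
    (fun m _ _ L R l0 l1 l2 l3 l4 l5 h0 h1 h2 h3 h4 h5 p0 p1 q0 q1 => force m fun m =>
      L l0 l1 l2 l3 l4 l5 h0 h1 m h3 h4 h5 p0 p1 q0 q1 && R l0 l1 m l3 l4 l5 h0 h1 h2 h3 h4 h5 p0 p1 q0 q1)
    (fun m _ _ L R l0 l1 l2 l3 l4 l5 h0 h1 h2 h3 h4 h5 p0 p1 q0 q1 => force m fun m =>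
      L l0 l1 l2 l3 l4 l5 h0 h1 h2 m h4 h5 p0 p1 q0 q1 && R l0 l1 l2 m l4 l5 h0 h1 h2 h3 h4 h5 p0 p1 q0 q1)
    (fun m _ _ L R l0 l1 l2 l3 l4 l5 h0 h1 h2 h3 h4 h5 p0 p1 q0 q1 => force m fun m =>
      L l0 l1 l2 l3 l4 l5 h0 h1 h2 h3 m h5 p0 p1 q0 q1 && R l0 l1 l2 l3 m l5 h0 h1 h2 h3 h4 h5 p0 p1 q0 q1)
    (fun m _ _ L R l0 l1 l2 l3 l4 l5 h0 h1 h2 h3 h4 h5 p0 p1 q0 q1 => force m fun m =>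
      L l0 l1 l2 l3 l4 l5 h0 h1 h2 h3 h4 m p0 p1 q0 q1 && R l0 l1 l2 l3 l4 m h0 h1 h2 h3 h4 h5 p0 p1 q0 q1)
    (fun m _ _ L R l0 l1 l2 l3 l4 l5 h0 h1 h2 h3 h4 h5 p0 p1 q0 q1 => force m fun m =>
      L l0 l1 l2 l3 l4 l5 h0 h1 h2 h3 h4 h5 p0 p1 m q1 && R l0 l1 l2 l3 l4 l5 h0 h1 h2 h3 h4 h5 m p1 q0 q1)
    (fun m _ _ L R l0 l1 l2 l3 l4 l5 h0 h1 h2 h3 h4 h5 p0 p1 q0 q1 => force m fun m =>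
      L l0 l1 l2 l3 l4 l5 h0 h1 h2 h3 h4 h5 p0 p1 q0 m && R l0 l1 l2 l3 l4 l5 h0 h1 h2 h3 h4 h5 p0 m q0 q1)
    t

end Pool.Agent.H.MP_653fdd_gt
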