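import Pool.Agent.H.MP_653fdd_gt.F

namespace Pool.Agent.H.MP_653fdd_gt

structure Ph (φ : ℝ) : Prop where
  sq : φ ^ 2 = φ + 1
  lo : 1.618 < φ
  hi : φ < 1.6181

structure Hx (φ X0 X1 X2 Y0 Y1 Y2 o0 o1 o2 : ℝ) : Prop where
  x0 : 0 ≤ X0
  x1 : 0 ≤ X1
  x2 : 0 ≤ X2
  y0 : 0 ≤ Y0
  y1 : 0 ≤ Y1
  y2 : 0 ≤ Y2
  p0 : 0 < o0
  p1 : 0 < o1
  p2 : 0 < o2
  i0 : φ * (o0 + o1 + o2) + o1 ≤ X0 + Y2
  i1 : φ * (o0 + o1 + o2) + o2 ≤ X1 + Y0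
  i2 : φ * (o0 + o1 + o2) + o0 ≤ X2 + Y1
  k0 : φ * (o0 + o1 + o2) ≤ 2 * (X0 + Y1)
  k1 : φ * (o0 + o1 + o2) ≤ 2 * (X1 + Y2)
  k2 : φ * (o0 + o1 + o2) ≤ 2 * (X2 + Y0)
  a0 : 1909 * (X2 + Y2 + o2) + 8090 * (o0 + o1 + o2) ≤ 18091 * (X0 + Y1)
  a1 : 1909 * (X0 + Y0 + o0) + 8090 * (o0 + o1 + o2) ≤ 18091 * (X1 + Y2)
  a2 : 1909 * (X1 + Y1 + o1) + 8090 * (o0 + o1 + o2) ≤ 18091 * (X2 + Y0)

variable {φ X0 X1 X2 Y0 Y1 Y2 o0 o1 o2 : ℝ}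

lemma Hx.cyc (H : Hx φ X0 X1 X2 Y0 Y1 Y2 o0 o1 o2) : Hx φ X1 X2 X0 Y1 Y2 Y0 o1 o2 o0 := by
  obtain ⟨x0, x1, x2, y0, y1, y2, p0, p1, p2, i0, i1, i2, k0, k1, k2, a0, a1, a2⟩ := H
  have e : o1 + o2 + o0 = o0 + o1 + o2 := by ring
  refine ⟨x1, x2, x0, y1, y2, y0, p1, p2, p0, ?_, ?_, ?_, ?_, ?_, ?_, ?_, ?_, ?_⟩ <;> rw [e] <;>
    assumption

lemma Hx.ref (H : Hx φ X0 X1 X2 Y0 Y1 Y2 o0 o1 o2) : Hx φ Y0 Y2 Y1 X0 X2 X1 o0 o2 o1 := by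
  obtain ⟨x0, x1, x2, y0, y1, y2, p0, p1, p2, i0, i1, i2, k0, k1, k2, a0, a1, a2⟩ := H
  have e : o0 + o2 + o1 = o0 + o1 + o2 := by ring
  refine ⟨y0, y2, y1, x0, x2, x1, p0, p2, p1, ?_, ?_, ?_, ?_, ?_, ?_, ?_, ?_, ?_⟩ <;> rw [e] <;>
    linarith

lemma TT_cyc : TT X1 X2 X0 Y1 Y2 Y0 o1 o2 o0 = TT X0 X1 X2 Y0 Y1 Y2 o0 o1 o2 := by
  unfold TT; ring

lemma TT_ref : TT Y0 Y2 Y1 X0 X2 X1 o0 o2 o1 = TT X0 X1 X2 Y0 Y1 Y2 o0 o1 o2 := by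
  unfold TT; ring

lemma rmono {a X o : ℝ} (h0 : 0 ≤ a) (h : a ≤ X) (ho : 0 < o) : a / (a + o) ≤ X / (X + o) := by
  rw [div_le_div_iff₀ (by linarith) (by linarith)]; nlinarith

lemma lone (P : Ph φ) (H : Hx φ X0 X1 X2 Y0 Y1 Y2 o0 o1 o2) (h1 : 2 * X0 ≤ o0) (h2 : 2 * Y0 ≤ o0) :
    1 < TT X0 X1 X2 Y0 Y1 Y2 o0 o1 o2 := by
  obtain ⟨x0, x1, x2, y0, y1, y2, p0, p1, p2, i0, i1, i2, k0, k1, k2, a0, a1, a2⟩ := H
  obtain ⟨sq, lo, hi⟩ := P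
  obtain ⟨s, hs⟩ : ∃ s, s = o0 + o1 + o2 := ⟨_, rfl⟩
  rw [← hs] at i0 i1 i2 k0 k1 k2
  have s0 : 0 < s := by linarith
  have l1 : 1.618 * s < φ * s := mul_lt_mul_of_pos_right lo s0
  have l2 : φ * s < 1.6181 * s := mul_lt_mul_of_pos_right hi s0
  clear a0 a1 a2
  obtain ⟨κ, hκ⟩ : ∃ κ, κ = φ * s / 2 - o0 / 2 := ⟨_, rfl⟩
  obtain ⟨D, hD⟩ : ∃ D, D = φ * s + s - 3 * o0 / 2 := ⟨_, rfl⟩
  have κ0 : 0 < κ := by linarith
  have D0 : 0 < D := by linarith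
  have b1 := rmono (a := D - o1) (by linarith) (show _ ≤ X1 by linarith) p1
  have b2 := rmono κ0.le (show _ ≤ Y1 by linarith) p1
  have b3 := rmono κ0.le (show _ ≤ X2 by linarith) p2
  have b4 := rmono (a := D - o2) (by linarith) (show _ ≤ Y2 by linarith) p2
  rw [sub_add_cancel] at b1 b4
  have c1 := mul_le_mul b1 b2 (by positivity) (by positivity)
  have c2 := mul_le_mul b3 b4 (div_nonneg (by linarith) D0.le) (by positivity)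
  have c3 : 4 / (2 * κ + o1 + o2) ≤ 1 / (κ + o1) + 1 / (κ + o2) := by
    rw [div_add_div _ _ (by positivity) (by positivity), div_le_div_iff₀ (by positivity) (by positivity)]
    linarith [sq_nonneg (o1 - o2)]
  have c4 : (D - o1) / D * (κ / (κ + o1)) + κ / (κ + o2) * ((D - o2) / D) =
      κ / D * ((D + κ) * (1 / (κ + o1) + 1 / (κ + o2)) - 2) := by
    field_simp; ring
  have c5 : 1 < κ / D * ((D + κ) * (4 / (2 * κ + o1 + o2)) - 2) := by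
    have e : κ / D * ((D + κ) * (4 / (2 * κ + o1 + o2)) - 2) =
        κ * (4 * (D + κ) - 2 * (2 * κ + o1 + o2)) / (D * (2 * κ + o1 + o2)) := by
      field_simp
    have e2 : 2 * κ + o1 + o2 = φ * s + s - 2 * o0 := by linarith
    rw [e, one_lt_div (by positivity), e2, hκ, hD]
    have e3 : (φ * s / 2 - o0 / 2) * (4 * (φ * s + s - 3 * o0 / 2 + (φ * s / 2 - o0 / 2)) -
        2 * (φ * s + s - 2 * o0)) - (φ * s + s - 3 * o0 / 2) * (φ * s + s - 2 * o0) =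
        o0 * ((5 / 2 - φ / 2) * s - o0) + (φ ^ 2 - φ - 1) * s ^ 2 := by ring
    have e4 : 0 < o0 * ((5 / 2 - φ / 2) * s - o0) := mul_pos p0 (by linarith)
    rw [sq] at e3
    linarith
  have c6 : κ / D * ((D + κ) * (4 / (2 * κ + o1 + o2)) - 2) ≤
      κ / D * ((D + κ) * (1 / (κ + o1) + 1 / (κ + o2)) - 2) := by gcongr
  have d1 : 0 ≤ X0 / (X0 + o0) * (Y0 / (Y0 + o0)) := by positivity
  have d2 : 0 ≤ Y1 / (X2 + o2) * (Y2 / (X0 + o0)) * (Y0 / (X1 + o1)) := by positivity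
  have d3 : 0 ≤ X0 / (Y2 + o2) * (X1 / (Y0 + o0)) * (X2 / (Y1 + o1)) := by positivity
  unfold TT
  linarith

def Do (X Y o : ℝ) : Prop := Y ≤ X ∧ o ≤ 2 * X

lemma bb (P : Ph φ) (H : Hx φ X0 X1 X2 Y0 Y1 Y2 o0 o1 o2) (d0 : Do X0 Y0 o0) (d1 : Do X1 Y1 o1)
    (d2 : Do X2 Y2 o2 ∨ Do Y2 X2 o2) : 1 < TT X0 X1 X2 Y0 Y1 Y2 o0 o1 o2 := by
  obtain ⟨x0, x1, x2, y0, y1, y2, p0, p1, p2, i0, i1, i2, k0, k1, k2, a0, a1, a2⟩ := H
  obtain ⟨sq, lo, hi⟩ := P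
  obtain ⟨c, hc⟩ : ∃ c, c = 10000 / (o0 + o1 + o2) := ⟨_, rfl⟩
  have c0 : 0 < c := by rw [hc]; positivity
  have c1 : c * (o0 + o1 + o2) = 10000 := by rw [hc]; field_simp
  have m : ∀ {a b : ℝ}, a ≤ b → c * a ≤ c * b := fun h => mul_le_mul_of_nonneg_left h c0.le
  have c2 : c * (φ * (o0 + o1 + o2)) = φ * 10000 := by rw [← c1]; ring
  have H' : Hy (c * X0) (c * X1) (c * X2) (c * Y0) (c * Y1) (c * Y2) (c * o0) (c * o1) (c * o2) :=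
    ⟨by positivity, by positivity, by positivity, by positivity, by positivity, by positivity,
      by positivity, by positivity, by positivity, by linarith, by linarith [m i0], by linarith [m i1],
      by linarith [m i2], by linarith [m a0], by linarith [m a1], by linarith [m a2]⟩
  have e : ∀ a b o : ℝ, c * a / (c * b + c * o) = a / (b + o) := fun a b o => by
    rw [← mul_add, mul_div_mul_left _ _ c0.ne']
  have e2 : TT (c * X0) (c * X1) (c * X2) (c * Y0) (c * Y1) (c * Y2) (c * o0) (c * o1) (c * o2) =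
      TT X0 X1 X2 Y0 Y1 Y2 o0 o1 o2 := by simp only [TT, e]
  have dd : ∀ {X Y o : ℝ}, Do X Y o → Dm true (c * X) (c * Y) (c * o) := fun h _ =>
    ⟨m h.1, by linarith [m h.2]⟩
  have df : ∀ {X Y o : ℝ}, Dm false X Y o := fun h => absurd h (by simp)
  have z : ∀ {v : ℝ}, 0 ≤ v → ((0 : ℕ) : ℝ) ≤ v := fun h => by simpa using h
  have w : ∀ {v : ℝ}, Hi v 0 := Or.inl rfl
  have q0 : c * o0 ≤ (10000 : ℕ) := by push_cast; linarith [H'.s, H'.p1, H'.p2]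
  have q1 : c * o1 ≤ (10000 : ℕ) := by push_cast; linarith [H'.s, H'.p0, H'.p2]
  rw [← e2]
  rcases d2 with d2 | d2
  · exact chk_sound (f0 := true) (f1 := true) (f2 := true) H' (dd d0) df (dd d1) df (dd d2) df
      _ _ _ _ _ _ _ _ _ _ _ _ _ _ _ _ _ (z H'.x0) (z H'.x1) (z H'.x2) (z H'.y0) (z H'.y1) (z H'.y2)
      w w w w w w (z H'.p0.le) (z H'.p1.le) q0 q1 ok0
  · exact chk_sound (f0 := true) (f1 := true) (f2 := false) H' (dd d0) df (dd d1) df df (dd d2)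
      _ _ _ _ _ _ _ _ _ _ _ _ _ _ _ _ _ (z H'.x0) (z H'.x1) (z H'.x2) (z H'.y0) (z H'.y1) (z H'.y2)
      w w w w w w (z H'.p0.le) (z H'.p1.le) q0 q1 ok4

lemma tri (X Y o : ℝ) : (2 * X ≤ o ∧ 2 * Y ≤ o) ∨ Do X Y o ∨ Do Y X o := by
  unfold Do
  rcases le_total X Y with h | h <;> rcases le_total (2 * X) o with h1 | h1 <;>
    rcases le_total (2 * Y) o with h2 | h2
  all_goals first
    | exact Or.inl ⟨h1, h2⟩
    | exact Or.inr (Or.inl ⟨h, by linarith⟩)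
    | exact Or.inr (Or.inr ⟨h, by linarith⟩)

theorem core (P : Ph φ) (H : Hx φ X0 X1 X2 Y0 Y1 Y2 o0 o1 o2) :
    1 < TT X0 X1 X2 Y0 Y1 Y2 o0 o1 o2 := by
  rcases tri X0 Y0 o0 with a | a
  · exact lone P H a.1 a.2
  rcases tri X1 Y1 o1 with b | b
  · rw [← TT_cyc]; exact lone P H.cyc b.1 b.2
  rcases tri X2 Y2 o2 with c | c
  · rw [← TT_cyc, ← TT_cyc]; exact lone P H.cyc.cyc c.1 c.2
  rcases a with a | a <;> rcases b with b | b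
  · exact bb P H a b c
  · rcases c with c | c
    · rw [← TT_cyc, ← TT_cyc]; exact bb P H.cyc.cyc c a (Or.inr b)
    · rw [← TT_ref, ← TT_cyc]; exact bb P H.ref.cyc c b (Or.inr a)
  · rcases c with c | c
    · rw [← TT_cyc]; exact bb P H.cyc b c (Or.inr a)
    · rw [← TT_ref]; exact bb P H.ref a c (Or.inr b)
  · rw [← TT_ref, ← TT_cyc, ← TT_cyc]; exact bb P H.ref.cyc.cyc b a c.symm

end Pool.Agent.H.MP_653fdd_gt
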